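import Pool.Agent.helper747_se.Greedy
import Pool.Agent.helper747_ug.Cond

/-!
# Conditioning of random sets of given size
-/

set_option autoImplicit false

namespace Pool.Agent.helper747_se

open Finset Pool.Agent.H647R3.UG Pool.Agent.TH522.UG Pool.Agent.helper747_ug

variable {V : Type} [Fintype V] [DecidableEq V]

/-- the two labels differ -/
def nq : Finset (Bool × Bool) := {(true, false), (false, true)}

/-- covariance -/
noncomputable def Cv (L : ((V → Bool) → ℝ) →ₗ[ℝ] ℝ) (u v : V) : ℝ :=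
  pr2 L u v true true - pr L u true * pr L v true

/-- variance in a set -/
noncomputable def Ph (S : Finset V) (L : ((V → Bool) → ℝ) →ₗ[ℝ] ℝ) : ℝ := ∑ v ∈ S, vr L v

/-- twice the expected weight of the boundary -/
noncomputable def Ex (w : V → V → ℝ) (L : ((V → Bool) → ℝ) →ₗ[ℝ] ℝ) : ℝ :=
  ∑ u, ∑ v, w u v * L (rel nq u v)

/-- the size is `K` -/
def Sz (K : ℝ) (L : ((V → Bool) → ℝ) →ₗ[ℝ] ℝ) : Prop :=
  ∀ f : (V → Bool) → ℝ, L (fun x => f x * ((∑ v, ind v true x) - K)) = 0

theorem Sz_cnd {K : ℝ} {L : ((V → Bool) → ℝ) →ₗ[ℝ] ℝ} (h : Sz K L) (u : V) (a : Bool) :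
    Sz K (cnd L u a) := by
  intro f
  show L (fun x => ind u a x * (f x * ((∑ v, ind v true x) - K))) / pr L u a = 0
  have h1 := h (fun x => ind u a x * f x)
  have e : (fun x : V → Bool => ind u a x * (f x * ((∑ v, ind v true x) - K))) =
      fun x => (ind u a x * f x) * ((∑ v, ind v true x) - K) := by
    funext x; ring
  rw [e, h1, zero_div]

theorem Sz_sum {k : ℕ} {K : ℝ} {L : ((V → Bool) → ℝ) →ₗ[ℝ] ℝ} (hL : Mixed k L) (h : Sz K L) :
    ∑ v, pr L v true = K := by
  have h1 := h (fun _ => 1)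
  have e : (fun x : V → Bool => (1 : ℝ) * ((∑ v, ind v true x) - K)) =
      (∑ v, ind v true) - K • fun _ => (1 : ℝ) := by
    funext x
    simp only [Pi.sub_apply, Finset.sum_apply, Pi.smul_apply, smul_eq_mul]
    ring
  rw [e, map_sub, map_sum, map_smul, hL.one] at h1
  simp only [smul_eq_mul, mul_one] at h1
  show ∑ v, L (ind v true) = K
  linarith

section
variable {k : ℕ} {L : ((V → Bool) → ℝ) →ₗ[ℝ] ℝ}

theorem pr_false (hL : Mixed k L) (u : V) : pr L u false = 1 - pr L u true := by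
  have h := FB.one L hL.one u
  rw [Fintype.sum_bool] at h
  linarith

theorem pr_mem (hL : Mixed k L) (u : V) : 0 ≤ pr L u true ∧ pr L u true ≤ 1 := by
  have h1 := Mx.pr_nonneg hL u true
  have h2 := Mx.pr_nonneg hL u false
  rw [pr_false hL] at h2
  exact ⟨h1, by linarith⟩

theorem pr2_tf (L : ((V → Bool) → ℝ) →ₗ[ℝ] ℝ) (u v : V) :
    pr2 L u v true false = pr L u true - pr2 L u v true true := by
  have h := FB.left L u v true
  rw [Fintype.sum_bool] at h
  linarith

theorem pr2_ft (L : ((V → Bool) → ℝ) →ₗ[ℝ] ℝ) (u v : V) :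
    pr2 L u v false true = pr L v true - pr2 L u v true true := by
  have h := FB.right L u v true
  rw [Fintype.sum_bool] at h
  linarith

theorem pr2_ff (hL : Mixed k L) (u v : V) :
    pr2 L u v false false = 1 - pr L u true - pr L v true + pr2 L u v true true := by
  have h := FB.left L u v false
  rw [Fintype.sum_bool, pr2_ft, pr_false hL] at h
  linarith

theorem Cv_self (L : ((V → Bool) → ℝ) →ₗ[ℝ] ℝ) (u : V) :
    Cv L u u = pr L u true - pr L u true ^ 2 := by
  unfold Cv
  rw [Mx.diag]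
  unfold dg
  rw [if_pos rfl]
  ring

theorem vr_eq (hL : Mixed k L) (u : V) : vr L u = 2 * Cv L u u := by
  unfold vr
  rw [Cv_self, Fintype.sum_bool, pr_false hL]
  ring

theorem Cv_symm (L : ((V → Bool) → ℝ) →ₗ[ℝ] ℝ) (u v : V) : Cv L u v = Cv L v u := by
  unfold Cv
  rw [FB.symm L u v]
  ring

theorem nq_val (L : ((V → Bool) → ℝ) →ₗ[ℝ] ℝ) (u v : V) :
    L (rel nq u v) = pr L u true + pr L v true - 2 * pr2 L u v true true := by
  rw [rel_eq]
  unfold nq
  rw [sum_pair (by decide), pr2_tf, pr2_ft]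
  ring

theorem nq_ge_var (L : ((V → Bool) → ℝ) →ₗ[ℝ] ℝ) (u v : V) :
    Cv L u u + Cv L v v - 2 * Cv L u v ≤ L (rel nq u v) := by
  rw [nq_val, Cv_self, Cv_self]
  unfold Cv
  nlinarith [sq_nonneg (pr L u true - pr L v true)]

theorem nq_ge_diff (hL : Mixed k L) (u v : V) :
    pr L u true - pr L v true ≤ L (rel nq u v) := by
  rw [nq_val]
  have h := Mx.pr2_nonneg hL u v false true
  rw [pr2_ft] at h
  linarith

theorem Cv_dec (hL : Mixed k L) (u v : V) : 4 * Cv L u v ^ 2 ≤ vr L u * dec L u v := by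
  have hp := pr_mem hL u
  set p := pr L u true with hpd
  have hv : vr L u = 2 * (p * (1 - p)) := by
    rw [vr_eq hL, Cv_self]; ring
  have htt := Mx.pr2_nonneg hL u v true true
  have htf := Mx.pr2_nonneg hL u v true false
  have hft := Mx.pr2_nonneg hL u v false true
  have hff := Mx.pr2_nonneg hL u v false false
  rw [pr2_tf] at htf
  rw [pr2_ft] at hft
  rw [pr2_ff hL] at hff
  have hd : dec L u v = 2 * Cv L u v ^ 2 / p + 2 * Cv L u v ^ 2 / (1 - p) := by
    unfold dec
    simp only [Fintype.sum_bool]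
    rw [pr2_tf, pr2_ft, pr2_ff hL, pr_false hL u, pr_false hL v]
    unfold Cv
    rw [← hpd]
    ring
  rcases hp.1.eq_or_lt with h | h
  · have hC : Cv L u v = 0 := by
      have h2 : pr2 L u v true true = 0 := le_antisymm (by linarith) htt
      unfold Cv
      rw [← hpd, ← h, h2]
      ring
    rw [hC, hv, ← h]
    simp
  · rcases hp.2.eq_or_lt with h' | h'
    · have hC : Cv L u v = 0 := by
        have h2 : pr2 L u v true true = pr L v true := le_antisymm (by linarith) (by linarith)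
        unfold Cv
        rw [← hpd, h', h2]
        ring
      rw [hC, hv, h']
      simp
    · have h'' : 0 < 1 - p := by linarith
      rw [hd, hv]
      refine le_of_eq ?_
      field_simp
      ring

theorem Cv_gram (hL : Mixed k L) :
    ∃ B : V → V → ℝ, ∀ u v, Cv L u v = ∑ j, B j u * B j v := by
  have key : ∀ u v : V, Cv L u v =
      L (fun x => (ind u true x - pr L u true) * (ind v true x - pr L v true)) := by
    intro u v
    have h1 : (fun x : V → Bool => (ind u true x - pr L u true) * (ind v true x - pr L v true)) =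
        (fun x => ind u true x * ind v true x) - (pr L v true) • (ind u true) -
          (pr L u true) • (ind v true) + (pr L u true * pr L v true) • (fun _ => (1 : ℝ)) := by
      funext x
      simp only [Pi.add_apply, Pi.sub_apply, Pi.smul_apply, smul_eq_mul]
      ring
    rw [h1, map_add, map_sub, map_sub, map_smul, map_smul, map_smul, hL.one]
    simp only [smul_eq_mul]
    change _ = pr2 L u v true true - pr L v true * pr L u true - pr L u true * pr L v true + _
    unfold Cv
    ring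
  refine FV.gram (fun u v => Cv L u v) (fun u v => Cv_symm L u v) fun x => ?_
  have h2 := hL.psd ∅ (by simp) (fun _ => 1) (fun _ _ _ => rfl) (fun _ => zero_le_one)
    (fun v b => x v * ((if b = true then 1 else 0) - pr L v true))
  have e2 : (fun y : V → Bool => (1 : ℝ) * (∑ v, x v * ((if y v = true then 1 else 0)
      - pr L v true)) ^ 2) =
      ∑ i : V, ∑ j : V, (x i * x j) • (fun y : V → Bool =>
        (ind i true y - pr L i true) * (ind j true y - pr L j true)) := by
    funext y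
    have e3 : ∑ v, x v * ((if y v = true then 1 else 0) - pr L v true) =
        ∑ i : V, x i * (ind i true y - pr L i true) := rfl
    simp only [Finset.sum_apply, Pi.smul_apply, smul_eq_mul]
    rw [e3, one_mul, sq, Finset.sum_mul_sum]
    refine Finset.sum_congr rfl fun i _ => Finset.sum_congr rfl fun j _ => by ring
  rw [e2] at h2
  simp only [map_sum, map_smul, smul_eq_mul] at h2
  simpa only [key] using h2

theorem vr_nonneg (hL : Mixed k L) (u : V) : 0 ≤ vr L u := (vr_mem hL u).1

/-- a vertex whose value reduces the variance -/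
theorem cond_v (hL : Mixed k L) (S : Finset V) (ρ : ℝ) (hpos : 0 < Ph S L)
    (hcor : ρ * Ph S L ^ 2 ≤ 4 * ∑ u ∈ S, ∑ v ∈ S, Cv L u v ^ 2) :
    ∃ u ∈ S, ∑ a, pr L u a * Ph S (cnd L u a) ≤ Ph S L - ρ * Ph S L := by
  have hdec : ∀ u, ∑ a, pr L u a * Ph S (cnd L u a) = Ph S L - ∑ v ∈ S, dec L u v := by
    intro u
    unfold Ph
    simp only [mul_sum]
    rw [sum_comm, ← sum_sub_distrib]
    refine sum_congr rfl fun v _ => ?_
    rw [Mx.fd hL u v]
    ring
  by_contra hcon
  push Not at hcon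
  have hX : ∀ u ∈ S, ∑ v ∈ S, dec L u v < ρ * Ph S L := by
    intro u hu
    have := hcon u hu
    rw [hdec] at this
    linarith
  have h1 : 4 * ∑ u ∈ S, ∑ v ∈ S, Cv L u v ^ 2 ≤ ∑ u ∈ S, vr L u * ∑ v ∈ S, dec L u v := by
    rw [mul_sum]
    refine sum_le_sum fun u _ => ?_
    rw [mul_sum, mul_sum]
    exact sum_le_sum fun v _ => Cv_dec hL u v
  have h2 : ∑ u ∈ S, vr L u * ∑ v ∈ S, dec L u v < ∑ u ∈ S, vr L u * (ρ * Ph S L) := by
    refine sum_lt_sum (fun u hu => mul_le_mul_of_nonneg_left (hX u hu).le (vr_nonneg hL u)) ?_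
    have : ∃ u ∈ S, 0 < vr L u := by
      by_contra hno
      push Not at hno
      have : Ph S L ≤ 0 := sum_nonpos hno
      linarith
    obtain ⟨u, hu, hu0⟩ := this
    exact ⟨u, hu, mul_lt_mul_of_pos_left (hX u hu) hu0⟩
  rw [← sum_mul] at h2
  have h3 : (∑ u ∈ S, vr L u) = Ph S L := rfl
  rw [h3] at h2
  nlinarith

theorem Ex_nonneg {w : V → V → ℝ} (h0 : ∀ u v, 0 ≤ w u v) (hL : Mixed k L) : 0 ≤ Ex w L :=
  sum_nonneg fun u _ => sum_nonneg fun v _ => mul_nonneg (h0 u v) (rel_val_nonneg hL nq u v)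

end

/-- the conditioning process -/
theorem process {w : V → V → ℝ} (S : Finset V) (K : ℝ) (hK : 0 < K)
    (τ X ρ : ℝ) (hτ : 0 < τ) (hX : 0 < X) (hρ : 0 ≤ ρ)
    (hcor : ∀ (k : ℕ) (L : ((V → Bool) → ℝ) →ₗ[ℝ] ℝ), Mixed k L → Sz K L → Ex w L ≤ X →
      τ * K < Ph S L → ρ * Ph S L ^ 2 ≤ 4 * ∑ u ∈ S, ∑ v ∈ S, Cv L u v ^ 2)
    (hno : ∀ (k : ℕ) (L : ((V → Bool) → ℝ) →ₗ[ℝ] ℝ), Mixed k L → Sz K L → Ex w L ≤ X →
      τ * K < Ph S L) (h0 : ∀ u v, 0 ≤ w u v) :
    ∀ (j : ℕ) (L : ((V → Bool) → ℝ) →ₗ[ℝ] ℝ), Mixed j L → Sz K L →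
      j * (ρ * (τ * K)) * (1 - Ex w L / X) ≤ Ph S L := by
  have hPh0 : ∀ (k : ℕ) (L : ((V → Bool) → ℝ) →ₗ[ℝ] ℝ), Mixed k L → 0 ≤ Ph S L := fun k L hL =>
    sum_nonneg fun v _ => vr_nonneg hL v
  intro j
  induction j with
  | zero =>
    intro L hL _
    simpa using hPh0 0 L hL
  | succ j ih =>
    intro L hL hS
    have hc0 : 0 ≤ ρ * (τ * K) := by positivity
    by_cases hE : Ex w L ≤ X
    · have h1 := hno _ L hL hS hE
      have hpos : 0 < Ph S L := lt_trans (by positivity) h1
      obtain ⟨u, hu, hdecr⟩ := cond_v hL S ρ hpos (hcor _ L hL hS hE h1)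
      have hp1 : ∑ a, pr L u a = 1 := FB.one L hL.one u
      have hp0 := Mx.pr_nonneg hL u
      have havg : ∑ a, pr L u a * Ex w (cnd L u a) = Ex w L := by
        unfold Ex
        simp only [mul_sum]
        rw [sum_comm]
        refine sum_congr rfl fun x _ => ?_
        rw [sum_comm]
        refine sum_congr rfl fun y _ => ?_
        have := avg_rel hL nq u x y
        rw [← this, mul_sum]
        exact sum_congr rfl fun a _ => by ring
      have hih : ∑ a, pr L u a * (j * (ρ * (τ * K)) * (1 - Ex w (cnd L u a) / X)) ≤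
          ∑ a, pr L u a * Ph S (cnd L u a) := by
        refine sum_le_sum fun a _ => ?_
        rcases (hp0 a).eq_or_lt with h | h
        · rw [← h, zero_mul, zero_mul]
        · exact mul_le_mul_of_nonneg_left (ih _ (Mx.step hL u a h) (Sz_cnd hS u a)) h.le
      have hl : ∑ a, pr L u a * (j * (ρ * (τ * K)) * (1 - Ex w (cnd L u a) / X)) =
          j * (ρ * (τ * K)) * (1 - Ex w L / X) := by
        have : ∀ a, pr L u a * (j * (ρ * (τ * K)) * (1 - Ex w (cnd L u a) / X)) =
            j * (ρ * (τ * K)) * pr L u a -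
              j * (ρ * (τ * K)) / X * (pr L u a * Ex w (cnd L u a)) := fun a => by
          field_simp
        simp only [this]
        rw [sum_sub_distrib, ← mul_sum, ← mul_sum, havg, hp1]
        field_simp
      rw [hl] at hih
      have h2 : ρ * (τ * K) ≤ ρ * Ph S L := mul_le_mul_of_nonneg_left h1.le hρ
      have h3 : ρ * (τ * K) * (1 - Ex w L / X) ≤ ρ * (τ * K) := by
        have : 0 ≤ Ex w L / X := div_nonneg (Ex_nonneg h0 hL) hX.le
        nlinarith
      push_cast
      linarith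
    · push Not at hE
      refine le_trans ?_ (hPh0 _ L hL)
      have : 1 - Ex w L / X ≤ 0 := by
        rw [sub_nonpos, one_le_div hX]; exact hE.le
      exact mul_nonpos_of_nonneg_of_nonpos (by positivity) this

end Pool.Agent.helper747_se
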