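import Pool.Agent.helper747_se.Param
import Pool.Agent.helper747_lr.Final

/-!
Size lower bounds for local reductions from sparse systems of linear equations to small-set
expansion.
-/

set_option autoImplicit false

namespace Pool.Agent.helper747_se

open Finset Pool.Agent.W888.GX Pool.Agent.TH522.UG Pool.Agent.helper747_ug Pool.Agent.helper747_lr
open Pool.Agent.H647R3.UG (ind)

/-- adjacency weights -/
noncomputable def wA {V : Type} (G : V → V → Prop) (u v : V) : ℝ := by
  classical exact if G u v then 1 else 0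

theorem wA_nonneg {V : Type} (G : V → V → Prop) (u v : V) : 0 ≤ wA G u v := by
  unfold wA
  split_ifs <;> norm_num

variable {n m : ℕ} {V : Type} [Fintype V] [DecidableEq V]

open Classical in
/-- a right-hand side which is far from satisfiable and whose graph has a random set of the right
size with small expected boundary -/
theorem exists_rhs2 (c : Fin m → Fin 3 → Fin n)
    (r : ℕ) (hn : 1 ≤ n)
    (hE : Exp (row c) (∅ : Finset (Fin n))ᶜ univ (2 * r)) (δ : ℝ)
    (hnear : ((univ.filter fun b : Fin m → ZMod 2 => ¬ ∀ x, (1 / 2 - δ) * m ≤ viol c b x).card : ℝ) *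
          2 ^ n ≤ 2 ^ m)
    (G : (Fin m → ZMod 2) → V → V → Prop) (h : (Fin n → ZMod 2) → V → Bool)
    (w q k : ℕ) (κ K : ℝ)
    (hreads : ∀ u v, ∃ S : Finset (Fin m), S.card ≤ q ∧ Rd S fun b => G b u v) (hq : q ≤ r)
    (hloc : ∀ v, ∃ T : Finset (Fin n), T.card ≤ w ∧ Rd T fun x => h x v)
    (hsize : ∀ x, ∑ v, ind v true (h x) = K)
    (hcomp : ∑ x : Fin n → ZMod 2, ∑ u, ∑ v, wA (G (lhs c x)) u v * rel nq u v (h x) ≤ κ * 2 ^ n)
    (hk : 8 * ((k + 2) * w) ≤ r) :
    ∃ b : Fin m → ZMod 2, (∀ x, (1 / 2 - δ) * m ≤ viol c b x) ∧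
      ∃ L : ((V → Bool) → ℝ) →ₗ[ℝ] ℝ, Mixed k L ∧ Sz K L ∧ Ex (wA (G b)) L ≤ 2 * κ := by
  choose S hS hRS using hreads
  have hpe : ∀ b, IsPseudoExpectation ((k + 2) * w) (Lb c r b) := fun b => pe hE _ hk
  have hmix : ∀ b, Mixed k ((Lb c r b).comp (LinearMap.funLeft ℝ ℝ h)) := fun b =>
    mixed_of (hpe b) h hloc le_rfl
  have hsz : ∀ b, Sz K ((Lb c r b).comp (LinearMap.funLeft ℝ ℝ h)) := by
    intro b f
    show Lb c r b (fun x => f (h x) * ((∑ v, ind v true (h x)) - K)) = 0
    have e : (fun x : Fin n → ZMod 2 => f (h x) * ((∑ v, ind v true (h x)) - K)) = 0 := by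
      funext x
      rw [hsize, sub_self, mul_zero]
      rfl
    rw [e, map_zero]
  obtain ⟨val, hval⟩ : ∃ val : (Fin m → ZMod 2) → ℝ, val = fun b =>
    Ex (wA (G b)) ((Lb c r b).comp (LinearMap.funLeft ℝ ℝ h)) := ⟨_, rfl⟩
  have hval0 : ∀ b, 0 ≤ val b := by
    intro b
    rw [hval]
    exact Ex_nonneg (wA_nonneg _) (hmix b)
  -- the average
  obtain ⟨F, hF⟩ : ∃ F : (Fin m → ZMod 2) → (Fin n → ZMod 2) → ℝ,
    F = fun b x => ∑ u, ∑ v, wA (G b) u v * rel nq u v (h x) := ⟨_, rfl⟩
  have hFlow : ∀ x, (fun b => F b x) ∈ LowDegree (Fin m) (ZMod 2) r := by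
    intro x
    have h0 : (fun b => F b x) = ∑ u, ∑ v, fun b => wA (G b) u v * rel nq u v (h x) := by
      funext b
      rw [hF, Finset.sum_apply]
      refine Finset.sum_congr rfl fun u _ => ?_
      rw [Finset.sum_apply]
    rw [h0]
    refine Submodule.sum_mem _ fun u _ => Submodule.sum_mem _ fun v _ => ?_
    refine mem_lowD (S u v) ((hS u v).trans hq) _ ?_
    intro b b' hb
    have h1 : G b u v = G b' u v := hRS u v b b' hb
    show wA (G b) u v * rel nq u v (h x) = wA (G b') u v * rel nq u v (h x)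
    unfold wA
    rw [h1]
  have havg := avg_rhs c r hE F hFlow
  have hLF : ∀ b, Lb c r b (F b) = val b := by
    intro b
    rw [hval]
    show Lb c r b (F b) = ∑ u, ∑ v, wA (G b) u v * Lb c r b (fun x => rel nq u v (h x))
    have h1 : F b = ∑ u, ∑ v, wA (G b) u v • fun x => rel nq u v (h x) := by
      funext x
      rw [hF, Finset.sum_apply]
      refine Finset.sum_congr rfl fun u _ => ?_
      rw [Finset.sum_apply]
      rfl
    rw [h1, map_sum]
    refine Finset.sum_congr rfl fun u _ => ?_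
    rw [map_sum]
    refine Finset.sum_congr rfl fun v _ => ?_
    rw [map_smul, smul_eq_mul]
  have h2n : (0 : ℝ) < 2 ^ n := by positivity
  have h2m : (0 : ℝ) < 2 ^ m := by positivity
  have hsum : ∑ b, val b ≤ κ * 2 ^ m := by
    rw [Finset.sum_congr rfl fun b _ => hLF b] at havg
    have hFx : ∑ x, F (lhs c x) x ≤ κ * 2 ^ n := by
      rw [hF]
      exact hcomp
    have h1 : (∑ b, val b) * 2 ^ n ≤ (κ * 2 ^ m) * 2 ^ n := by
      rw [havg]
      calc 2 ^ m * ∑ x, F (lhs c x) x ≤ 2 ^ m * (κ * 2 ^ n) :=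
            mul_le_mul_of_nonneg_left hFx h2m.le
        _ = _ := by ring
    exact le_of_mul_le_mul_right h1 h2n
  -- few right-hand sides are near
  obtain ⟨N, hN⟩ : ∃ N : Finset (Fin m → ZMod 2),
    N = univ.filter fun b : Fin m → ZMod 2 => ¬ ∀ x, (1 / 2 - δ) * m ≤ viol c b x := ⟨_, rfl⟩
  have hNc : (N.card : ℝ) ≤ 2 ^ m / 2 ^ n := by
    rw [le_div_iff₀ h2n, hN]
    exact hnear
  have hcardb : ((univ : Finset (Fin m → ZMod 2)).card : ℝ) = 2 ^ m := by
    rw [card_univ, Fintype.card_fun, ZMod.card, Fintype.card_fin]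
    push_cast
    rfl
  have hNN : (N.card : ℝ) + (Nᶜ.card : ℝ) = 2 ^ m := by
    rw [← hcardb]
    exact_mod_cast (Finset.card_add_card_compl N)
  have hfar : ∀ b, b ∈ Nᶜ ↔ ∀ x, (1 / 2 - δ) * m ≤ viol c b x := by
    intro b
    rw [mem_compl, hN, mem_filter]
    simp only [mem_univ, true_and, not_not]
  have hhalf : (2 : ℝ) ^ m / 2 ≤ Nᶜ.card := by
    have h3 : (2 : ℝ) ≤ 2 ^ n := by
      calc (2 : ℝ) = 2 ^ 1 := (pow_one 2).symm
        _ ≤ 2 ^ n := pow_le_pow_right₀ (by norm_num) hn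
    have h4 : (2 : ℝ) ^ m / 2 ^ n ≤ 2 ^ m / 2 := div_le_div_of_nonneg_left h2m.le (by norm_num) h3
    linarith
  by_contra hcon
  push Not at hcon
  have hlt : ∀ b ∈ Nᶜ, 2 * κ < val b := by
    intro b hb
    have h1 := hcon b ((hfar b).1 hb) _ (hmix b) (hsz b)
    rw [hval]
    exact h1
  have hNcne : Nᶜ.Nonempty := by
    rw [← card_pos]
    have : (0 : ℝ) < Nᶜ.card := lt_of_lt_of_le (by positivity) hhalf
    exact_mod_cast this
  have h1 : (Nᶜ.card : ℝ) * (2 * κ) < ∑ b ∈ Nᶜ, val b := by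
    calc (Nᶜ.card : ℝ) * (2 * κ) = ∑ _b ∈ Nᶜ, 2 * κ := by rw [Finset.sum_const, nsmul_eq_mul]
      _ < _ := Finset.sum_lt_sum_of_nonempty hNcne hlt
  have h3 : ∑ b, val b = ∑ b ∈ N, val b + ∑ b ∈ Nᶜ, val b := (Finset.sum_add_sum_compl N _).symm
  have h4 : 0 ≤ ∑ b ∈ N, val b := Finset.sum_nonneg fun b _ => hval0 b
  have hκ0 : 0 ≤ κ := by
    have h5 : 0 ≤ ∑ b, val b := Finset.sum_nonneg fun b _ => hval0 b
    by_contra hc
    push Not at hc
    have := mul_neg_of_neg_of_pos hc h2m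
    linarith
  have h5 : (2 : ℝ) ^ m / 2 * (2 * κ) ≤ Nᶜ.card * (2 * κ) :=
    mul_le_mul_of_nonneg_right hhalf (by linarith)
  have h6 : (2 : ℝ) ^ m / 2 * (2 * κ) = κ * 2 ^ m := by ring
  linarith

/-- the number of pairs of adjacent vertices `(u, v)` with `u ∈ T`, `v ∉ T` -/
noncomputable def bd {V : Type} [Fintype V] (G : V → V → Prop) (T : Finset V) : ℝ := by
  classical exact ((univ.filter fun p : V × V => p.1 ∈ T ∧ p.2 ∉ T ∧ G p.1 p.2).card : ℝ)

theorem bd_cut (G : V → V → Prop) (T : Finset V) : bd G T = cut (wA G) T := by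
  classical
  unfold bd cut wA
  rw [Finset.card_filter]
  push_cast
  rw [Fintype.sum_prod_type]
  have h1 : ∀ u : V, (∑ v : V, if u ∈ T ∧ v ∉ T ∧ G u v then (1 : ℝ) else 0) =
      if u ∈ T then ∑ v ∈ Tᶜ, (if G u v then (1 : ℝ) else 0) else 0 := by
    intro u
    by_cases hu : u ∈ T
    · rw [if_pos hu, ← Finset.sum_filter_add_sum_filter_not univ (fun v => v ∉ T)]
      have h2 : ∑ v ∈ univ.filter (fun v => ¬ v ∉ T),
          (if u ∈ T ∧ v ∉ T ∧ G u v then (1 : ℝ) else 0) = 0 := by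
        refine Finset.sum_eq_zero fun v hv => ?_
        rw [mem_filter] at hv
        rw [if_neg]
        exact fun h => hv.2 h.2.1
      rw [h2, add_zero]
      have h3 : univ.filter (fun v => v ∉ T) = Tᶜ := by
        ext v; simp
      rw [h3]
      refine Finset.sum_congr rfl fun v hv => ?_
      have hv' : v ∉ T := mem_compl.1 hv
      simp [hu, hv']
    · rw [if_neg hu]
      exact Finset.sum_eq_zero fun v _ => if_neg fun h => hu h.1
  have h4 : ∀ u : V, ∑ v : V, (if u ∈ T ∧ v ∉ T ∧ G u v then (1 : ℝ) else 0) =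
      if u ∈ T then ∑ v ∈ Tᶜ, (if G u v then (1 : ℝ) else 0) else 0 := h1
  rw [Finset.sum_congr rfl fun u _ => h4 u, Finset.sum_ite_mem, Finset.univ_inter]

theorem bd_rel (G : V → V → Prop) (hG : ∀ u v, G u v → G v u) (T : Finset V) (h : V → Bool)
    (hT : ∀ v, h v = true ↔ v ∈ T) :
    ∑ u, ∑ v, wA G u v * rel nq u v h = 2 * bd G T := by
  classical
  rw [bd_cut, two_mul]
  have hs : ∀ u v, wA G u v = wA G v u := by
    intro u v
    unfold wA
    have : G u v ↔ G v u := ⟨hG u v, hG v u⟩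
    simp only [this]
  have h1 : ∀ u v, wA G u v * rel nq u v h =
      (if u ∈ T then (if v ∈ Tᶜ then wA G u v else 0) else 0) +
      (if v ∈ T then (if u ∈ Tᶜ then wA G v u else 0) else 0) := by
    intro u v
    unfold rel nq
    simp only [mem_compl]
    by_cases hu : u ∈ T
    · have hu' : h u = true := (hT u).2 hu
      by_cases hv : v ∈ T
      · have hv' : h v = true := (hT v).2 hv
        simp [hu, hv, hu', hv']
      · have hv' : h v = false := by
          by_contra hc
          exact hv ((hT v).1 (by simpa using hc))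
        simp [hu, hv, hu', hv']
    · have hu' : h u = false := by
        by_contra hc
        exact hu ((hT u).1 (by simpa using hc))
      by_cases hv : v ∈ T
      · have hv' : h v = true := (hT v).2 hv
        simp [hu, hv, hu', hv', hs u v]
      · have hv' : h v = false := by
          by_contra hc
          exact hv ((hT v).1 (by simpa using hc))
        simp [hu, hv, hu', hv']
  simp only [h1, Finset.sum_add_distrib]
  have h2 : ∑ u : V, ∑ v : V, (if u ∈ T then (if v ∈ Tᶜ then wA G u v else 0) else 0) =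
      cut (wA G) T := by
    unfold cut
    have : ∀ u : V, ∑ v : V, (if u ∈ T then (if v ∈ Tᶜ then wA G u v else 0) else 0) =
        if u ∈ T then ∑ v ∈ Tᶜ, wA G u v else 0 := by
      intro u
      by_cases hu : u ∈ T
      · simp only [if_pos hu]
        rw [Finset.sum_ite_mem, Finset.univ_inter]
      · simp only [if_neg hu, Finset.sum_const_zero]
    rw [Finset.sum_congr rfl fun u _ => this u, Finset.sum_ite_mem, Finset.univ_inter]
  have h3 : ∑ u : V, ∑ v : V, (if v ∈ T then (if u ∈ Tᶜ then wA G v u else 0) else 0) =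
      cut (wA G) T := by
    rw [Finset.sum_comm]
    exact h2
  rw [h2, h3]

end Pool.Agent.helper747_se
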