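import Pool.Agent.helper747_se.Walk

/-!
# Removing small sets with small boundary
-/

set_option autoImplicit false

namespace Pool.Agent.helper747_se

open Finset Pool.Agent.H647R3.UG Pool.Agent.helper747_ug

variable {V : Type} [Fintype V] [DecidableEq V]

/-- weight of the boundary -/
def cut (w : V → V → ℝ) (S : Finset V) : ℝ := ∑ u ∈ S, ∑ v ∈ Sᶜ, w u v

theorem cut_union {w : V → V → ℝ} (h0 : ∀ u v, 0 ≤ w u v) (S T : Finset V) (h : Disjoint S T) :
    cut w (S ∪ T) ≤ cut w S + ∑ u ∈ T, ∑ v ∈ (S ∪ T)ᶜ, w u v := by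
  unfold cut
  rw [sum_union h]
  have h1 : ∑ u ∈ S, ∑ v ∈ (S ∪ T)ᶜ, w u v ≤ ∑ u ∈ S, ∑ v ∈ Sᶜ, w u v := by
    refine sum_le_sum fun u _ => sum_le_sum_of_subset_of_nonneg ?_ fun v _ _ => h0 _ _
    intro v hv
    rw [mem_compl] at hv ⊢
    exact fun h' => hv (mem_union_left _ h')
  linarith

theorem pad {w : V → V → ℝ} (h0 : ∀ u v, 0 ≤ w u v) (D : ℝ) (hD : ∀ u, ∑ v, w u v = D)
    (S : Finset V) (K : ℕ) (hS : S.card ≤ K) (hK : K ≤ Fintype.card V) :
    ∃ F : Finset V, F.card = K ∧ cut w F ≤ cut w S + D * (K - S.card) := by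
  obtain ⟨F, h1, h2⟩ := Finset.exists_superset_card_eq hS hK
  refine ⟨F, h2, ?_⟩
  have h3 := cut_union h0 S (F \ S) disjoint_sdiff
  rw [union_sdiff_of_subset h1] at h3
  refine h3.trans ?_
  have h4 : ∑ u ∈ F \ S, ∑ v ∈ Fᶜ, w u v ≤ ∑ _u ∈ F \ S, D := by
    refine sum_le_sum fun u _ => ?_
    rw [← hD u]
    exact sum_le_sum_of_subset_of_nonneg (subset_univ _) fun v _ _ => h0 _ _
  rw [sum_const, nsmul_eq_mul, card_sdiff_of_subset h1, h2, Nat.cast_sub hS] at h4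
  linarith

theorem trim {w : V → V → ℝ} (h0 : ∀ u v, 0 ≤ w u v) (hs : ∀ u v, w u v = w v u) (D : ℝ)
    (hD : ∀ u, ∑ v, w u v = D) (S : Finset V) (K : ℕ) (hS : K ≤ S.card) :
    ∃ F : Finset V, F.card = K ∧ cut w F ≤ cut w S + D * (S.card - K) := by
  obtain ⟨F, h1, h2⟩ := Finset.exists_subset_card_eq hS
  refine ⟨F, h2, ?_⟩
  have h3 : Fᶜ = Sᶜ ∪ (S \ F) := by
    ext v
    simp only [mem_compl, mem_union, mem_sdiff]
    constructor
    · intro h
      by_cases hv : v ∈ S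
      · exact Or.inr ⟨hv, h⟩
      · exact Or.inl hv
    · rintro (h | h)
      · exact fun hv => h (h1 hv)
      · exact h.2
  have hdis : Disjoint Sᶜ (S \ F) := by
    rw [Finset.disjoint_left]
    intro v hv hv'
    exact (mem_compl.1 hv) (mem_sdiff.1 hv').1
  unfold cut
  rw [h3]
  have h4 : ∀ u, ∑ v ∈ Sᶜ ∪ (S \ F), w u v = ∑ v ∈ Sᶜ, w u v + ∑ v ∈ S \ F, w u v :=
    fun u => sum_union hdis
  simp only [h4, sum_add_distrib]
  have h5 : ∑ u ∈ F, ∑ v ∈ Sᶜ, w u v ≤ ∑ u ∈ S, ∑ v ∈ Sᶜ, w u v :=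
    sum_le_sum_of_subset_of_nonneg h1 fun u _ _ => sum_nonneg fun v _ => h0 _ _
  have h6 : ∑ u ∈ F, ∑ v ∈ S \ F, w u v ≤ D * (S.card - K) := by
    rw [sum_comm]
    calc ∑ v ∈ S \ F, ∑ u ∈ F, w u v ≤ ∑ _v ∈ S \ F, D := by
          refine sum_le_sum fun v _ => ?_
          rw [← hD v]
          calc ∑ u ∈ F, w u v = ∑ u ∈ F, w v u := sum_congr rfl fun u _ => hs _ _
            _ ≤ _ := sum_le_sum_of_subset_of_nonneg (subset_univ _) fun u _ _ => h0 _ _
      _ = D * (S.card - K) := by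
          rw [sum_const, nsmul_eq_mul, card_sdiff_of_subset h1, h2, Nat.cast_sub hS]
          ring
  linarith

/-- a set `U` of small boundary, which can be filled up by sets of small boundary of almost any
size, such that small sets outside `U` have many edges which do not end in `U` -/
theorem greedy {w : V → V → ℝ} (h0 : ∀ u v, 0 ≤ w u v) (D : ℝ) (hD0 : 0 < D)
    (hD : ∀ u, ∑ v, w u v = D) (K : ℕ) (hK0 : 0 < K) (hK : K ≤ Fintype.card V) (φ κ γ : ℝ)
    (hφ : 0 ≤ φ) (hκ : 0 ≤ κ) (hγ : φ + κ < γ)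
    (hsound : ∀ S : Finset V, S.card = K → γ * (D * K) ≤ cut w S) :
    ∃ U : Finset V, cut w U ≤ φ * D * U.card ∧ (U.card : ℝ) ≤ K ∧
      (∀ y : ℝ, 0 ≤ y → y ≤ U.card → ∃ U' : Finset V, U' ⊆ U ∧ (U'.card : ℝ) ≤ y ∧
        y - κ * K ≤ U'.card ∧ cut w U' ≤ φ * D * U'.card) ∧
      ∀ T : Finset V, Disjoint U T → (T.card : ℝ) ≤ κ * K →
        φ * D * T.card ≤ ∑ u ∈ T, ∑ v ∈ (U ∪ T)ᶜ, w u v := by
  classical
  have hK0' : (0 : ℝ) < K := by exact_mod_cast hK0
  let P : Finset V → Prop := fun U => cut w U ≤ φ * D * U.card ∧ (U.card : ℝ) ≤ K ∧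
      (∀ y : ℝ, 0 ≤ y → y ≤ U.card → ∃ U' : Finset V, U' ⊆ U ∧ (U'.card : ℝ) ≤ y ∧
        y - κ * K ≤ U'.card ∧ cut w U' ≤ φ * D * U'.card)
  have hP0 : P ∅ := by
    refine ⟨by simp [cut], by simp, fun y hy0 hy => ⟨∅, subset_rfl, by simpa using hy0, ?_, by
      simp [cut]⟩⟩
    have : 0 ≤ κ * K := by positivity
    simp only [card_empty, Nat.cast_zero] at hy ⊢
    linarith
  obtain ⟨U, hU, hmax⟩ := Finset.exists_max_image (univ.filter P) Finset.card ⟨∅, by simp [hP0]⟩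
  rw [mem_filter] at hU
  obtain ⟨-, hU1, hU2, hU3⟩ := hU
  refine ⟨U, hU1, hU2, hU3, fun T hdis hT => ?_⟩
  by_contra hcon
  push Not at hcon
  have hTne : T.Nonempty := by
    by_contra hne
    rw [not_nonempty_iff_eq_empty] at hne
    rw [hne] at hcon
    simp at hcon
  have hcard : (U ∪ T).card = U.card + T.card := card_union_of_disjoint hdis
  have hcut : cut w (U ∪ T) ≤ φ * D * (U ∪ T).card := by
    have h1 := cut_union h0 U T hdis
    rw [hcard]
    push_cast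
    nlinarith
  by_cases hc : ((U ∪ T).card : ℝ) ≤ K
  · have hPU : P (U ∪ T) := by
      refine ⟨hcut, hc, fun y hy0 hy => ?_⟩
      by_cases hyU : y ≤ U.card
      · obtain ⟨U', h1, h2⟩ := hU3 y hy0 hyU
        exact ⟨U', h1.trans subset_union_left, h2⟩
      · push Not at hyU
        refine ⟨U, subset_union_left, hyU.le, ?_, hU1⟩
        rw [hcard] at hy
        push_cast at hy
        linarith
    have h1 := hmax (U ∪ T) (by simp [hPU])
    rw [hcard] at h1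
    have := hTne.card_pos
    omega
  · push Not at hc
    rw [hcard] at hc
    push_cast at hc
    obtain ⟨F, hF1, hF2⟩ := pad h0 D hD U K (by exact_mod_cast hU2) hK
    have h1 := hsound F hF1
    have h2 : D * (K - U.card) ≤ D * (κ * K) := mul_le_mul_of_nonneg_left (by linarith) hD0.le
    have h3 : φ * D * U.card ≤ φ * D * K := mul_le_mul_of_nonneg_left hU2 (by positivity)
    have h4 : (φ + κ) * (D * K) < γ * (D * K) := mul_lt_mul_of_pos_right hγ (by positivity)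
    nlinarith

/-- the weights outside `U`, with the edges to `U` turned into loops -/
noncomputable def Qr (w : V → V → ℝ) (D : ℝ) (U : Finset V) (u v : {v // v ∉ U}) : ℝ :=
  (w u.1 v.1 + if u = v then ∑ z ∈ U, w u.1 z else 0) / D

theorem sum_out (U : Finset V) (f : V → ℝ) : ∑ v : {v // v ∉ U}, f v.1 = ∑ v ∈ Uᶜ, f v := by
  rw [← Finset.sum_subtype (s := Uᶜ) (p := fun v => v ∉ U) (fun x => by simp) f]

theorem Qr_one {w : V → V → ℝ} (D : ℝ) (hD0 : 0 < D) (hD : ∀ u, ∑ v, w u v = D) (U : Finset V)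
    (u : {v // v ∉ U}) : Dg (Qr w D U) u = 1 := by
  unfold Dg Qr
  rw [← sum_div, sum_add_distrib, sum_out U (fun v => w u.1 v)]
  simp only [sum_ite_eq, mem_univ, if_true]
  rw [div_eq_one_iff_eq hD0.ne', ← hD u.1, add_comm]
  exact sum_add_sum_compl U _

theorem Qr_nt {w : V → V → ℝ} (h0 : ∀ u v, 0 ≤ w u v) (hs : ∀ u v, w u v = w v u) (D : ℝ)
    (hD0 : 0 < D) (hD : ∀ u, ∑ v, w u v = D) (U : Finset V) : Nt (Qr w D U) := by
  refine ⟨fun u v => ?_, fun u v => ?_, fun u => by rw [Qr_one D hD0 hD]; norm_num⟩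
  · unfold Qr
    have h1 := h0 u.1 v.1
    have h2 : 0 ≤ ∑ z ∈ U, w u.1 z := sum_nonneg fun z _ => h0 _ _
    refine div_nonneg ?_ hD0.le
    split_ifs <;> linarith
  · unfold Qr
    rw [hs u.1 v.1]
    by_cases h : u = v
    · subst h; rfl
    · have h' : ¬ v = u := fun e => h e.symm
      simp [h, h']

theorem Qr_small {w : V → V → ℝ} (D : ℝ) (hD0 : 0 < D)
    (hD : ∀ u, ∑ v, w u v = D) (U : Finset V) (φ B : ℝ)
    (hT : ∀ T : Finset V, Disjoint U T → (T.card : ℝ) ≤ B →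
        φ * D * T.card ≤ ∑ u ∈ T, ∑ v ∈ (U ∪ T)ᶜ, w u v)
    (T : Finset {v // v ∉ U}) (hc : (T.card : ℝ) ≤ B) : wi (Qr w D U) T ≤ (1 - φ) * T.card := by
  set T' : Finset V := T.map (Function.Embedding.subtype _) with hT'
  have hcard : T'.card = T.card := card_map _
  have hdis : Disjoint U T' := by
    rw [Finset.disjoint_left]
    intro v hv hv'
    rw [hT', mem_map] at hv'
    obtain ⟨y, -, rfl⟩ := hv'
    exact y.2 hv
  have h1 := hT T' hdis (by rw [hcard]; exact hc)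
  have h2 : D * wi (Qr w D U) T = ∑ u ∈ T', (∑ v ∈ T', w u v + ∑ v ∈ U, w u v) := by
    unfold wi
    rw [hT', sum_map, mul_sum]
    refine sum_congr rfl fun u hu => ?_
    rw [sum_map]
    have : ∀ v : {v // v ∉ U}, D * Qr w D U u v =
        w u.1 v.1 + if u = v then ∑ z ∈ U, w u.1 z else 0 := by
      intro v
      unfold Qr
      rw [mul_div_cancel₀ _ hD0.ne']
    rw [mul_sum]
    simp only [this]
    rw [sum_add_distrib, sum_ite_eq, if_pos hu]
    rfl
  have h3 : ∑ u ∈ T', (∑ v ∈ T', w u v + ∑ v ∈ U, w u v) + ∑ u ∈ T', ∑ v ∈ (U ∪ T')ᶜ, w u v =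
      D * T.card := by
    rw [← sum_add_distrib, ← hcard]
    have : ∀ u ∈ T', ∑ v ∈ T', w u v + ∑ v ∈ U, w u v + ∑ v ∈ (U ∪ T')ᶜ, w u v = D := by
      intro u _
      rw [← hD u, ← sum_add_sum_compl (U ∪ T') (fun v => w u v), sum_union hdis]
      ring
    rw [sum_congr rfl this, sum_const, nsmul_eq_mul, mul_comm]
  rw [hcard] at h1
  have h4 : D * wi (Qr w D U) T ≤ D * ((1 - φ) * T.card) := by
    rw [h2]
    linarith
  exact le_of_mul_le_mul_left h4 hD0

end Pool.Agent.helper747_se
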