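import Pool.Agent.helper747_se.Round

/-!
# Few levels only
-/

set_option autoImplicit false

namespace Pool.Agent.helper747_se

open Finset Pool.Agent.H647R3.UG Pool.Agent.TH522.UG Pool.Agent.helper747_ug

variable {V : Type} [Fintype V] [DecidableEq V]

/-- local correlation -/
theorem local_c {w : V → V → ℝ} (h0 : ∀ u v, 0 ≤ w u v) (hs : ∀ u v, w u v = w v u) (D : ℝ)
    (hD0 : 0 < D) (hD : ∀ u, ∑ v, w u v = D) (U : Finset V)
    {k : ℕ} {L : ((V → Bool) → ℝ) →ₗ[ℝ] ℝ} (hL : Mixed k L) :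
    D * ∑ u ∈ Uᶜ, Cv L u u - Ex w L / 2 ≤
      D * ∑ u : {v // v ∉ U}, ∑ v : {v // v ∉ U}, Qr w D U u v * Cv L u.1 v.1 := by
  have e1 : D * ∑ u : {v // v ∉ U}, ∑ v : {v // v ∉ U}, Qr w D U u v * Cv L u.1 v.1 =
      ∑ u ∈ Uᶜ, ∑ v ∈ Uᶜ, w u v * Cv L u v + ∑ u ∈ Uᶜ, (∑ z ∈ U, w u z) * Cv L u u := by
    rw [← sum_add_distrib, ← sum_out U (fun u => ∑ v ∈ Uᶜ, w u v * Cv L u v +
      (∑ z ∈ U, w u z) * Cv L u u), mul_sum]
    refine sum_congr rfl fun u _ => ?_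
    rw [← sum_out U (fun v => w u.1 v * Cv L u.1 v), mul_sum]
    have h2 : ∀ v : {v // v ∉ U}, D * (Qr w D U u v * Cv L u.1 v.1) =
        w u.1 v.1 * Cv L u.1 v.1 + if u = v then (∑ z ∈ U, w u.1 z) * Cv L u.1 u.1 else 0 := by
      intro v
      unfold Qr
      by_cases h : u = v
      · subst h
        simp only [if_true]
        field_simp
      · simp only [if_neg h]
        field_simp
        ring
    simp only [h2]
    rw [sum_add_distrib, sum_ite_eq, if_pos (mem_univ _)]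
  have e2 : ∀ u, ∑ v ∈ Uᶜ, w u v = D - ∑ z ∈ U, w u z := by
    intro u
    rw [← hD u, ← sum_add_sum_compl U]
    ring
  have e3 : ∑ u ∈ Uᶜ, ∑ v ∈ Uᶜ, w u v * (Cv L u u + Cv L v v - 2 * Cv L u v) ≤ Ex w L := by
    have hn : ∀ u v, 0 ≤ w u v * L (rel nq u v) := fun u v =>
      mul_nonneg (h0 u v) (rel_val_nonneg hL nq u v)
    refine (sum_le_sum fun u _ => sum_le_sum fun v _ =>
      mul_le_mul_of_nonneg_left (nq_ge_var L u v) (h0 u v)).trans ?_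
    refine (sum_le_sum fun u _ => sum_le_sum_of_subset_of_nonneg (subset_univ _)
        fun v _ _ => hn u v).trans ?_
    exact sum_le_sum_of_subset_of_nonneg (subset_univ _) fun u _ _ => sum_nonneg fun v _ => hn u v
  have e4 : ∑ u ∈ Uᶜ, ∑ v ∈ Uᶜ, w u v * Cv L u u =
      D * ∑ u ∈ Uᶜ, Cv L u u - ∑ u ∈ Uᶜ, (∑ z ∈ U, w u z) * Cv L u u := by
    rw [mul_sum, ← sum_sub_distrib]
    refine sum_congr rfl fun u _ => ?_
    rw [← sum_mul, e2]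
    ring
  have e5 : ∑ u ∈ Uᶜ, ∑ v ∈ Uᶜ, w u v * Cv L v v =
      ∑ u ∈ Uᶜ, ∑ v ∈ Uᶜ, w u v * Cv L u u := by
    rw [sum_comm]
    exact sum_congr rfl fun u _ => sum_congr rfl fun v _ => by rw [hs]
  have e6 : ∑ u ∈ Uᶜ, ∑ v ∈ Uᶜ, w u v * (Cv L u u + Cv L v v - 2 * Cv L u v) =
      ∑ u ∈ Uᶜ, ∑ v ∈ Uᶜ, w u v * Cv L u u + ∑ u ∈ Uᶜ, ∑ v ∈ Uᶜ, w u v * Cv L v v -
        2 * ∑ u ∈ Uᶜ, ∑ v ∈ Uᶜ, w u v * Cv L u v := by
    rw [mul_sum, ← sum_add_distrib, ← sum_sub_distrib]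
    refine sum_congr rfl fun u _ => ?_
    rw [mul_sum, ← sum_add_distrib, ← sum_sub_distrib]
    exact sum_congr rfl fun v _ => by ring
  rw [e6, e5, e4] at e3
  rw [e1]
  linarith

/-- the bound for the levels -/
theorem levels {w : V → V → ℝ} (h0 : ∀ u v, 0 ≤ w u v) (hs : ∀ u v, w u v = w v u) (D : ℝ)
    (hD0 : 0 < D) (hD : ∀ u, ∑ v, w u v = D) (K : ℕ) (hK0 : 0 < K) (hK : K ≤ Fintype.card V)
    (γ : ℝ) (hγ : 0 < γ) (hγ1 : γ ≤ 1)
    (hsound : ∀ S : Finset V, S.card = K → γ * (D * K) ≤ cut w S)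
    (ε : ℝ) (hε : 0 < ε) (hεγ : 64 * ε ≤ γ) (t : ℕ)
    (k : ℕ) (L : ((V → Bool) → ℝ) →ₗ[ℝ] ℝ) (hL : Mixed k L) (hS : Sz K L)
    (hE : Ex w L ≤ 4 * ε * (D * K)) :
    k * (1 - 32 * ε / γ) ^ (4 * t) * γ ≤ 32 * ((Fintype.card V : ℝ) *
      ((1 - (γ / 8) ^ 2 / 8) ^ (2 * t) + 144 / ((γ / 8) ^ 4 * (γ / 8 * K)))) := by
  have hK0' : (0 : ℝ) < K := by exact_mod_cast hK0
  have hDK : 0 < D * K := by positivity
  obtain ⟨U, hU1, hU2, hU3, hU4⟩ := greedy h0 D hD0 hD K hK0 hK (γ / 8) (γ / 8) γ (by positivity)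
    (by positivity) (by linarith) hsound
  set R : ℝ := (Fintype.card V : ℝ) *
      ((1 - (γ / 8) ^ 2 / 8) ^ (2 * t) + 144 / ((γ / 8) ^ 4 * (γ / 8 * K))) with hR
  have hV0 : (0 : ℝ) < Fintype.card V := by
    have : 0 < Fintype.card V := lt_of_lt_of_le hK0 hK
    exact_mod_cast this
  have hb0 : 0 ≤ 1 - (γ / 8) ^ 2 / 8 := by nlinarith
  have hR0 : 0 < R := by
    rw [hR]
    refine mul_pos hV0 (add_pos_of_nonneg_of_pos (pow_nonneg hb0 _) (by positivity))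
  set e : ℝ := 32 * ε / γ with he
  have he1 : e ≤ 1 / 2 := by
    rw [he, div_le_iff₀ hγ]; linarith
  set ρ : ℝ := (1 - e) ^ (4 * t) / R with hρ
  have h1e : 0 ≤ 1 - e := by linarith
  have hρ0 : 0 ≤ ρ := div_nonneg (pow_nonneg h1e _) hR0.le
  have hX0 : 0 < 8 * ε * (D * K) := by positivity
  have hXγ : 8 * ε * (D * K) ≤ γ / 8 * (D * K) :=
    mul_le_mul_of_nonneg_right (by linarith) hDK.le
  have hno : ∀ (k : ℕ) (L : ((V → Bool) → ℝ) →ₗ[ℝ] ℝ), Mixed k L → Sz K L →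
      Ex w L ≤ 8 * ε * (D * K) → γ / 8 * K < Ph Uᶜ L := by
    intro k L hL hS hE
    by_contra hcon
    push Not at hcon
    exact round h0 hs D hD0 hD K hK0 hK γ hγ hsound U hU1 hU2 hU3 hL hS (hE.trans hXγ) hcon
  have hcor : ∀ (k : ℕ) (L : ((V → Bool) → ℝ) →ₗ[ℝ] ℝ), Mixed k L → Sz K L →
      Ex w L ≤ 8 * ε * (D * K) → γ / 8 * K < Ph Uᶜ L →
      ρ * Ph Uᶜ L ^ 2 ≤ 4 * ∑ u ∈ Uᶜ, ∑ v ∈ Uᶜ, Cv L u v ^ 2 := by
    intro k L hL _ hE hPh
    obtain ⟨B, hB⟩ := Cv_gram hL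
    have hb : Ph Uᶜ L = 2 * ∑ u ∈ Uᶜ, Cv L u u := by
      unfold Ph
      rw [mul_sum]
      exact sum_congr rfl fun u _ => vr_eq hL u
    set b0 := ∑ u ∈ Uᶜ, Cv L u u with hb0'
    have hc := local_c h0 hs D hD0 hD U hL
    rw [← hb0'] at hc
    have hQ := Qr_nt h0 hs D hD0 hD U
    have hQ1 := Qr_one D hD0 hD U
    have hA : ∑ u : {v // v ∉ U}, ∑ j, B j u.1 * B j u.1 = b0 := by
      rw [hb0', ← sum_out U (fun u => Cv L u u)]
      exact sum_congr rfl fun u _ => (hB u.1 u.1).symm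
    have hloc : (1 - 2 * e) * ∑ u : {v // v ∉ U}, ∑ j, B j u.1 * B j u.1 ≤
        ∑ u : {v // v ∉ U}, ∑ v : {v // v ∉ U}, Qr w D U u v * ∑ j, B j u.1 * B j v.1 := by
      rw [hA]
      have h3 : ∑ u : {v // v ∉ U}, ∑ v : {v // v ∉ U}, Qr w D U u v * ∑ j, B j u.1 * B j v.1 =
          ∑ u : {v // v ∉ U}, ∑ v : {v // v ∉ U}, Qr w D U u v * Cv L u.1 v.1 :=
        sum_congr rfl fun u _ => sum_congr rfl fun v _ => by rw [hB]
      rw [h3]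
      have h4 : Ex w L / 2 ≤ 2 * e * (D * b0) := by
        have h5 : (K : ℝ) ≤ 16 / γ * b0 := by
          rw [hb] at hPh
          rw [div_mul_eq_mul_div, le_div_iff₀ hγ]
          linarith
        calc Ex w L / 2 ≤ 4 * ε * D * K := by linarith
          _ ≤ 4 * ε * D * (16 / γ * b0) := mul_le_mul_of_nonneg_left h5 (by positivity)
          _ = 2 * e * (D * b0) := by rw [he]; ring
      have h6 : D * ((1 - 2 * e) * b0) ≤ D * ∑ u : {v // v ∉ U}, ∑ v : {v // v ∉ U},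
          Qr w D U u v * Cv L u.1 v.1 := by
        refine le_trans ?_ hc
        linarith
      exact le_of_mul_le_mul_left h6 hD0
    have hcr := corr hQ hQ1 (γ / 8) (by positivity) (by linarith) (γ / 8 * K) (by positivity)
      (fun T hT => Qr_small D hD0 hD U (γ / 8) (γ / 8 * K) hU4 T hT)
      (fun j (u : {v // v ∉ U}) => B j u.1) e (by linarith) hloc t
    rw [hA] at hcr
    have h7 : ∑ u : {v // v ∉ U}, ∑ v : {v // v ∉ U}, (∑ j, B j u.1 * B j v.1) ^ 2 =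
        ∑ u ∈ Uᶜ, ∑ v ∈ Uᶜ, Cv L u v ^ 2 := by
      rw [← sum_out U (fun u => ∑ v ∈ Uᶜ, Cv L u v ^ 2)]
      refine sum_congr rfl fun u _ => ?_
      rw [← sum_out U (fun v => Cv L u.1 v ^ 2)]
      exact sum_congr rfl fun v _ => by rw [hB]
    rw [h7] at hcr
    have h8 : 0 ≤ ∑ u ∈ Uᶜ, ∑ v ∈ Uᶜ, Cv L u v ^ 2 :=
      sum_nonneg fun u _ => sum_nonneg fun v _ => sq_nonneg _
    have hcardW : (Fintype.card {v // v ∉ U} : ℝ) ≤ Fintype.card V := by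
      exact_mod_cast Fintype.card_subtype_le _
    have h9 : (Fintype.card {v // v ∉ U} : ℝ) *
        ((1 - (γ / 8) ^ 2 / 8) ^ (2 * t) + 144 / ((γ / 8) ^ 4 * (γ / 8 * K))) ≤ R :=
      mul_le_mul_of_nonneg_right hcardW (add_nonneg (pow_nonneg hb0 _) (by positivity))
    have h10 : (1 - e) ^ (4 * t) * b0 ^ 2 ≤ R * ∑ u ∈ Uᶜ, ∑ v ∈ Uᶜ, Cv L u v ^ 2 :=
      hcr.trans (mul_le_mul_of_nonneg_right h9 h8)
    rw [hb, hρ, div_mul_eq_mul_div, div_le_iff₀ hR0]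
    nlinarith
  have hp := process Uᶜ K hK0' (γ / 8) (8 * ε * (D * K)) ρ (by positivity) hX0 hρ0 hcor hno h0 k L
    hL hS
  have hPh2 : Ph Uᶜ L ≤ 2 * K := by
    have hsum := Sz_sum hL hS
    rw [← hsum]
    unfold Ph
    rw [mul_sum]
    refine (sum_le_sum_of_subset_of_nonneg (subset_univ _) fun v _ _ => vr_nonneg hL v).trans ?_
    refine sum_le_sum fun v _ => ?_
    rw [vr_eq hL, Cv_self]
    nlinarith [sq_nonneg (pr L v true)]
  have hfrac : 1 / 2 ≤ 1 - Ex w L / (8 * ε * (D * K)) := by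
    have : Ex w L / (8 * ε * (D * K)) ≤ 1 / 2 := by
      rw [div_le_iff₀ hX0]; linarith
    linarith
  have h11 : (k : ℝ) * (ρ * (γ / 8 * K)) * (1 / 2) ≤ 2 * K :=
    (mul_le_mul_of_nonneg_left hfrac (by positivity)).trans (hp.trans hPh2)
  have h12 : (k : ℝ) * ρ * γ ≤ 32 := by
    have h13 : K * ((k : ℝ) * ρ * γ) ≤ K * 32 := by linarith
    exact le_of_mul_le_mul_left h13 hK0'
  rw [hρ] at h12
  have h14 : (k : ℝ) * (1 - e) ^ (4 * t) * γ = (k * ((1 - e) ^ (4 * t) / R) * γ) * R := by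
    field_simp
  rw [h14]
  exact mul_le_mul_of_nonneg_right h12 hR0.le

end Pool.Agent.helper747_se
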