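import Pool.Agent.helper747_se.Main

/-!
# Choice of the length of the walk
-/

set_option autoImplicit false

namespace Pool.Agent.helper747_se

open Finset Pool.Agent.H647R3.UG Pool.Agent.TH522.UG Pool.Agent.helper747_ug

variable {V : Type} [Fintype V] [DecidableEq V]

theorem exp_le (e : ℝ) (h0 : 0 ≤ e) (h1 : e ≤ 1 / 2) : Real.exp (-(2 * e)) ≤ 1 - e := by
  rw [Real.exp_neg]
  have h2 : 1 + 2 * e ≤ Real.exp (2 * e) := by
    have := Real.add_one_le_exp (2 * e)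
    linarith
  have h3 : 0 < 1 - e := by linarith
  rw [inv_le_comm₀ (Real.exp_pos _) h3]
  refine le_trans ?_ h2
  rw [inv_le_iff_one_le_mul₀ h3]
  nlinarith

theorem levels2 {w : V → V → ℝ} (h0 : ∀ u v, 0 ≤ w u v) (hs : ∀ u v, w u v = w v u) (D : ℝ)
    (hD0 : 0 < D) (hD : ∀ u, ∑ v, w u v = D) (K : ℕ) (hK0 : 0 < K) (hK : K ≤ Fintype.card V)
    (γ : ℝ) (hγ : 0 < γ) (hγ1 : γ ≤ 1)
    (hsound : ∀ S : Finset V, S.card = K → γ * (D * K) ≤ cut w S)
    (ε ρ : ℝ) (hε : 0 < ε) (hρ : 0 < ρ) (hρ1 : ρ ≤ 1) (hερ : 2 ^ 16 * ε ≤ ρ * γ ^ 3)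
    (k : ℕ) (L : ((V → Bool) → ℝ) →ₗ[ℝ] ℝ) (hL : Mixed k L) (hS : Sz K L)
    (hE : Ex w L ≤ 4 * ε * (D * K)) :
    k * γ ^ 6 * K ≤ 2 ^ 34 * (Fintype.card V : ℝ) * (Fintype.card V : ℝ) ^ ρ := by
  set N : ℝ := (Fintype.card V : ℝ) with hN
  have hK0' : (1 : ℝ) ≤ K := by exact_mod_cast hK0
  have hKN : (K : ℝ) ≤ N := by rw [hN]; exact_mod_cast hK
  have hN1 : 1 ≤ N := hK0'.trans hKN
  have hN0 : 0 < N := by linarith
  have hγ3 : γ ^ 3 ≤ γ := by
    have : γ ^ 2 ≤ 1 := pow_le_one₀ hγ.le hγ1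
    nlinarith
  have hεγ : 64 * ε ≤ γ := by
    have h1 : ρ * γ ^ 3 ≤ 1 * γ ^ 3 := mul_le_mul_of_nonneg_right hρ1 (by positivity)
    nlinarith
  set t : ℕ := ⌈256 / γ ^ 2 * Real.log N⌉₊ with ht
  have hlog : 0 ≤ Real.log N := Real.log_nonneg hN1
  have ht1 : 256 / γ ^ 2 * Real.log N ≤ t := Nat.le_ceil _
  have ht2 : (t : ℝ) ≤ 256 / γ ^ 2 * Real.log N + 1 := (Nat.ceil_lt_add_one (by positivity)).le
  have hlev := levels h0 hs D hD0 hD K hK0 hK γ hγ hγ1 hsound ε hε hεγ t k L hL hS hE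
  rw [← hN] at hlev
  -- right side
  have hb0 : 0 ≤ 1 - (γ / 8) ^ 2 / 8 := by nlinarith
  have h1 : (1 - (γ / 8) ^ 2 / 8) ^ (2 * t) ≤ 1 / N := by
    have h2 : 1 - (γ / 8) ^ 2 / 8 ≤ Real.exp (-((γ / 8) ^ 2 / 8)) := by
      have := Real.add_one_le_exp (-((γ / 8) ^ 2 / 8))
      linarith
    calc (1 - (γ / 8) ^ 2 / 8) ^ (2 * t) ≤ Real.exp (-((γ / 8) ^ 2 / 8)) ^ (2 * t) :=
          pow_le_pow_left₀ hb0 h2 _
      _ = Real.exp (-(γ ^ 2 / 256 * t)) := by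
          rw [← Real.exp_nat_mul]
          congr 1
          push_cast
          ring
      _ ≤ Real.exp (-(Real.log N)) := by
          refine Real.exp_le_exp.2 ?_
          have h3 : γ ^ 2 / 256 * (256 / γ ^ 2 * Real.log N) ≤ γ ^ 2 / 256 * t :=
            mul_le_mul_of_nonneg_left ht1 (by positivity)
          have h4 : γ ^ 2 / 256 * (256 / γ ^ 2 * Real.log N) = Real.log N := by field_simp
          linarith
      _ = 1 / N := by rw [Real.exp_neg, Real.exp_log hN0, one_div]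
  have hγ5 : γ ^ 5 ≤ 1 := pow_le_one₀ hγ.le hγ1
  have h5 : (1 - (γ / 8) ^ 2 / 8) ^ (2 * t) + 144 / ((γ / 8) ^ 4 * (γ / 8 * K)) ≤
      2 ^ 23 / (γ ^ 5 * K) := by
    have h6 : 1 / N ≤ 1 / (γ ^ 5 * K) := by
      refine one_div_le_one_div_of_le (by positivity) ?_
      calc γ ^ 5 * K ≤ 1 * K := mul_le_mul_of_nonneg_right hγ5 (by positivity)
        _ ≤ N := by rw [one_mul]; exact hKN
    have h7 : 144 / ((γ / 8) ^ 4 * (γ / 8 * K)) = 4718592 / (γ ^ 5 * K) := by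
      field_simp
      norm_num
    have h8 : (0 : ℝ) < γ ^ 5 * K := by positivity
    calc (1 - (γ / 8) ^ 2 / 8) ^ (2 * t) + 144 / ((γ / 8) ^ 4 * (γ / 8 * K)) ≤
        1 / (γ ^ 5 * K) + 4718592 / (γ ^ 5 * K) := by
          rw [h7]
          linarith
      _ = 4718593 / (γ ^ 5 * K) := by ring
      _ ≤ _ := div_le_div_of_nonneg_right (by norm_num) h8.le
  have h9 : k * (1 - 32 * ε / γ) ^ (4 * t) * γ ≤ 2 ^ 28 * N / (γ ^ 5 * K) := by
    refine hlev.trans ?_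
    have := mul_le_mul_of_nonneg_left h5 hN0.le
    calc 32 * (N * ((1 - (γ / 8) ^ 2 / 8) ^ (2 * t) + 144 / ((γ / 8) ^ 4 * (γ / 8 * K)))) ≤
        32 * (N * (2 ^ 23 / (γ ^ 5 * K))) := by linarith
      _ = _ := by ring
  -- left side
  have he0 : 0 ≤ 32 * ε / γ := by positivity
  have he1 : 32 * ε / γ ≤ 1 / 2 := by
    rw [div_le_iff₀ hγ]; linarith
  have h10 : Real.exp (-(ρ * Real.log N + 4)) ≤ (1 - 32 * ε / γ) ^ (4 * t) := by
    calc Real.exp (-(ρ * Real.log N + 4)) ≤ Real.exp (-(2 * (32 * ε / γ))) ^ (4 * t) := by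
          rw [← Real.exp_nat_mul]
          refine Real.exp_le_exp.2 ?_
          push_cast
          have h11 : 256 * ε / γ * t ≤ 256 * ε / γ * (256 / γ ^ 2 * Real.log N + 1) :=
            mul_le_mul_of_nonneg_left ht2 (by positivity)
          have h12 : 256 * ε / γ * (256 / γ ^ 2 * Real.log N + 1) =
              2 ^ 16 * ε / γ ^ 3 * Real.log N + 256 * ε / γ := by
            field_simp
            ring
          have h13 : 2 ^ 16 * ε / γ ^ 3 ≤ ρ := by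
            rw [div_le_iff₀ (by positivity)]
            exact hερ
          have h14 : 256 * ε / γ ≤ 4 := by
            rw [div_le_iff₀ hγ]; linarith
          have h15 := mul_le_mul_of_nonneg_right h13 hlog
          have h16 : 4 * (t : ℝ) * -(2 * (32 * ε / γ)) = -(256 * ε / γ * t) := by ring
          rw [h16]
          linarith
      _ ≤ _ := pow_le_pow_left₀ (Real.exp_pos _).le (exp_le _ he0 he1) _
  have h17 : Real.exp (-(ρ * Real.log N + 4)) * (N ^ ρ * 2 ^ 6) ≥ 1 := by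
    have h18 : N ^ ρ = Real.exp (ρ * Real.log N) := by
      rw [Real.rpow_def_of_pos hN0, mul_comm]
    have h19 : Real.exp 4 ≤ 2 ^ 6 := by
      have h20 := Real.exp_one_lt_d9
      have h21 : Real.exp 4 = Real.exp 1 ^ 4 := by
        rw [← Real.exp_nat_mul]; norm_num
      rw [h21]
      calc Real.exp 1 ^ 4 ≤ (2.7182818286 : ℝ) ^ 4 :=
            pow_le_pow_left₀ (Real.exp_pos _).le h20.le 4
        _ ≤ _ := by norm_num
    have h22 : Real.exp (-(ρ * Real.log N + 4)) * (Real.exp (ρ * Real.log N) * Real.exp 4) = 1 := by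
      rw [← Real.exp_add, ← Real.exp_add]
      have : -(ρ * Real.log N + 4) + (ρ * Real.log N + 4) = 0 := by ring
      rw [this, Real.exp_zero]
    rw [h18, ← h22]
    refine mul_le_mul_of_nonneg_left ?_ (Real.exp_pos _).le
    exact mul_le_mul_of_nonneg_left h19 (Real.exp_pos _).le
  have hNρ : 0 < N ^ ρ := Real.rpow_pos_of_pos hN0 _
  have hk0 : (0 : ℝ) ≤ k := Nat.cast_nonneg _
  have h23 : (k : ℝ) * γ ≤ 2 ^ 28 * N / (γ ^ 5 * K) * (N ^ ρ * 2 ^ 6) := by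
    calc (k : ℝ) * γ ≤ k * γ * ((1 - 32 * ε / γ) ^ (4 * t) * (N ^ ρ * 2 ^ 6)) := by
          have h24 : 1 ≤ (1 - 32 * ε / γ) ^ (4 * t) * (N ^ ρ * 2 ^ 6) :=
            h17.le.trans (mul_le_mul_of_nonneg_right h10 (by positivity))
          have := mul_le_mul_of_nonneg_left h24 (by positivity : (0 : ℝ) ≤ k * γ)
          linarith
      _ = k * (1 - 32 * ε / γ) ^ (4 * t) * γ * (N ^ ρ * 2 ^ 6) := by ring
      _ ≤ _ := mul_le_mul_of_nonneg_right h9 (by positivity)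
  have h25 : (0 : ℝ) < γ ^ 5 * K := by positivity
  calc (k : ℝ) * γ ^ 6 * K = k * γ * (γ ^ 5 * K) := by ring
    _ ≤ 2 ^ 28 * N / (γ ^ 5 * K) * (N ^ ρ * 2 ^ 6) * (γ ^ 5 * K) :=
        mul_le_mul_of_nonneg_right h23 h25.le
    _ = 2 ^ 34 * N * N ^ ρ := by
        field_simp

end Pool.Agent.helper747_se
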