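import Pool.Agent.helper747_se.Cond

/-!
# Rounding random sets of small variance
-/

set_option autoImplicit false

namespace Pool.Agent.helper747_se

open Finset Pool.Agent.H647R3.UG Pool.Agent.TH522.UG Pool.Agent.helper747_ug

variable {V : Type} [Fintype V] [DecidableEq V]

/-- rounding at one half -/
theorem half (p : ℝ) (h0 : 0 ≤ p) (h1 : p ≤ 1) :
    |(if 1 / 2 < p then (1 : ℝ) else 0) - p| ≤ 2 * (p - p ^ 2) := by
  split_ifs with h
  · rw [abs_of_nonneg (by linarith)]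
    nlinarith
  · push Not at h
    rw [zero_sub, abs_neg, abs_of_nonneg h0]
    nlinarith

theorem round_aux {w : V → V → ℝ} (h0 : ∀ u v, 0 ≤ w u v) (hs : ∀ u v, w u v = w v u) (D : ℝ)
    (hD : ∀ u, ∑ v, w u v = D) (U : Finset V)
    {k : ℕ} {L : ((V → Bool) → ℝ) →ₗ[ℝ] ℝ} (hL : Mixed k L) :
    ∃ S : Finset V, Disjoint S U ∧ |(S.card : ℝ) - ∑ v ∈ Uᶜ, pr L v true| ≤ Ph Uᶜ L ∧
      cut w S ≤ Ex w L + D * Ph Uᶜ L + cut w U := by
  classical
  set S : Finset V := (Uᶜ).filter fun v => 1 / 2 < pr L v true with hSd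
  have hSU : S ⊆ Uᶜ := filter_subset _ _
  have hvr : ∀ v, vr L v = 2 * (pr L v true - pr L v true ^ 2) := fun v => by
    rw [vr_eq hL, Cv_self]
  refine ⟨S, ?_, ?_, ?_⟩
  · rw [Finset.disjoint_left]
    intro v hv
    exact mem_compl.1 (hSU hv)
  · have h1 : (S.card : ℝ) = ∑ v ∈ Uᶜ, if 1 / 2 < pr L v true then (1 : ℝ) else 0 := by
      rw [hSd, Finset.card_filter]
      push_cast
      rfl
    rw [h1, ← sum_sub_distrib]
    refine (abs_sum_le_sum_abs _ _).trans ?_
    unfold Ph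
    refine sum_le_sum fun v _ => ?_
    rw [hvr]
    exact half _ (pr_mem hL v).1 (pr_mem hL v).2
  · set R : Finset V := Uᶜ \ S with hR
    have hSc : Sᶜ = U ∪ R := by
      ext v
      simp only [mem_compl, mem_union, hR, mem_sdiff]
      constructor
      · intro h
        by_cases hv : v ∈ U
        · exact Or.inl hv
        · exact Or.inr ⟨hv, h⟩
      · rintro (h | h)
        · exact fun hv => (mem_compl.1 (hSU hv)) h
        · exact h.2
    have hdis : Disjoint U R := by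
      rw [Finset.disjoint_left]
      intro v hv hv'
      rw [hR, mem_sdiff, mem_compl] at hv'
      exact hv'.1 hv
    have e1 : cut w S = ∑ u ∈ S, ∑ v ∈ U, w u v + ∑ u ∈ S, ∑ v ∈ R, w u v := by
      unfold cut
      rw [hSc, ← sum_add_distrib]
      exact sum_congr rfl fun u _ => sum_union hdis
    have e2 : ∑ u ∈ S, ∑ v ∈ U, w u v ≤ cut w U := by
      unfold cut
      calc ∑ u ∈ S, ∑ v ∈ U, w u v ≤ ∑ u ∈ Uᶜ, ∑ v ∈ U, w u v :=
            sum_le_sum_of_subset_of_nonneg hSU fun u _ _ => sum_nonneg fun v _ => h0 _ _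
        _ = ∑ v ∈ U, ∑ u ∈ Uᶜ, w u v := sum_comm
        _ = _ := sum_congr rfl fun v _ => sum_congr rfl fun u _ => hs _ _
    have hv0 := vr_nonneg hL
    have e3 : ∑ u ∈ S, ∑ v ∈ R, w u v ≤
        ∑ u ∈ S, ∑ v ∈ R, (w u v * L (rel nq u v) + w u v * vr L u + w u v * vr L v) := by
      refine sum_le_sum fun u hu => sum_le_sum fun v hv => ?_
      have h1 : 1 ≤ L (rel nq u v) + vr L u + vr L v := by
        have h2 := nq_ge_diff hL u v
        have h3 := half _ (pr_mem hL u).1 (pr_mem hL u).2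
        have h4 := half _ (pr_mem hL v).1 (pr_mem hL v).2
        rw [← hvr] at h3 h4
        have hu' : 1 / 2 < pr L u true := (mem_filter.1 hu).2
        have hv' : ¬ 1 / 2 < pr L v true := by
          intro hc
          rw [hR, mem_sdiff] at hv
          exact hv.2 (mem_filter.2 ⟨hv.1, hc⟩)
        rw [if_pos hu'] at h3
        rw [if_neg hv'] at h4
        have h5 := (abs_le.1 h3).2
        have h6 := (abs_le.1 h4).1
        linarith
      have h2 := mul_le_mul_of_nonneg_left h1 (h0 u v)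
      linarith
    have e4 : ∑ u ∈ S, ∑ v ∈ R, w u v * L (rel nq u v) ≤ Ex w L := by
      unfold Ex
      have hn : ∀ u v, 0 ≤ w u v * L (rel nq u v) := fun u v =>
        mul_nonneg (h0 u v) (rel_val_nonneg hL nq u v)
      refine (sum_le_sum fun u _ => sum_le_sum_of_subset_of_nonneg (subset_univ R)
        fun v _ _ => hn u v).trans ?_
      exact sum_le_sum_of_subset_of_nonneg (subset_univ S) fun u _ _ => sum_nonneg fun v _ => hn u v
    have e5 : ∑ u ∈ S, ∑ v ∈ R, w u v * vr L u ≤ D * ∑ u ∈ S, vr L u := by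
      rw [mul_sum]
      refine sum_le_sum fun u _ => ?_
      rw [← sum_mul]
      refine mul_le_mul_of_nonneg_right ?_ (hv0 u)
      rw [← hD u]
      exact sum_le_sum_of_subset_of_nonneg (subset_univ _) fun v _ _ => h0 _ _
    have e6 : ∑ u ∈ S, ∑ v ∈ R, w u v * vr L v ≤ D * ∑ v ∈ R, vr L v := by
      rw [sum_comm, mul_sum]
      refine sum_le_sum fun v _ => ?_
      rw [← sum_mul]
      refine mul_le_mul_of_nonneg_right ?_ (hv0 v)
      rw [← hD v]
      calc ∑ u ∈ S, w u v = ∑ u ∈ S, w v u := sum_congr rfl fun u _ => hs _ _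
        _ ≤ _ := sum_le_sum_of_subset_of_nonneg (subset_univ _) fun u _ _ => h0 _ _
    have e7 : ∑ u ∈ S, vr L u + ∑ v ∈ R, vr L v = Ph Uᶜ L := by
      unfold Ph
      rw [hR, add_comm]
      exact sum_sdiff hSU
    simp only [sum_add_distrib] at e3
    rw [e1, ← e7]
    nlinarith

/-- no good solution -/
theorem round {w : V → V → ℝ} (h0 : ∀ u v, 0 ≤ w u v) (hs : ∀ u v, w u v = w v u) (D : ℝ)
    (hD0 : 0 < D) (hD : ∀ u, ∑ v, w u v = D) (K : ℕ) (hK0 : 0 < K) (hK : K ≤ Fintype.card V)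
    (γ : ℝ) (hγ : 0 < γ) (hsound : ∀ S : Finset V, S.card = K → γ * (D * K) ≤ cut w S)
    (U : Finset V) (hU1 : cut w U ≤ γ / 8 * D * U.card) (hU2 : (U.card : ℝ) ≤ K)
    (hU3 : ∀ y : ℝ, 0 ≤ y → y ≤ U.card → ∃ U' : Finset V, U' ⊆ U ∧ (U'.card : ℝ) ≤ y ∧
        y - γ / 8 * K ≤ U'.card ∧ cut w U' ≤ γ / 8 * D * U'.card)
    {k : ℕ} {L : ((V → Bool) → ℝ) →ₗ[ℝ] ℝ} (hL : Mixed k L) (hS : Sz K L)
    (hE : Ex w L ≤ γ / 8 * (D * K)) (hP : Ph Uᶜ L ≤ γ / 8 * K) : False := by
  obtain ⟨S, hdis, hcard, hcut⟩ := round_aux h0 hs D hD U hL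
  have hK0' : (0 : ℝ) < K := by exact_mod_cast hK0
  have hDK : 0 < D * K := by positivity
  have hsum := Sz_sum hL hS
  rw [← sum_add_sum_compl U] at hsum
  have hU0 : 0 ≤ ∑ v ∈ U, pr L v true := sum_nonneg fun v _ => (pr_mem hL v).1
  have hUc : ∑ v ∈ U, pr L v true ≤ U.card := by
    calc ∑ v ∈ U, pr L v true ≤ ∑ _v ∈ U, (1 : ℝ) := sum_le_sum fun v _ => (pr_mem hL v).2
      _ = _ := by simp
  have h1 := abs_le.1 hcard
  have hPD : D * Ph Uᶜ L ≤ γ / 8 * (D * K) := by
    calc D * Ph Uᶜ L ≤ D * (γ / 8 * K) := mul_le_mul_of_nonneg_left hP hD0.le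
      _ = _ := by ring
  have hUD : γ / 8 * D * U.card ≤ γ / 8 * (D * K) := by
    calc γ / 8 * D * U.card ≤ γ / 8 * D * K := mul_le_mul_of_nonneg_left hU2 (by positivity)
      _ = _ := by ring
  rcases le_or_gt K S.card with hc | hc
  · obtain ⟨F, hF1, hF2⟩ := trim h0 hs D hD S K hc
    have h2 := hsound F hF1
    have h3 : D * ((S.card : ℝ) - K) ≤ D * Ph Uᶜ L := mul_le_mul_of_nonneg_left (by linarith) hD0.le
    nlinarith
  · have hc' : (S.card : ℝ) < K := by exact_mod_cast hc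
    have hex : ∃ U' : Finset V, U' ⊆ U ∧ (U'.card : ℝ) ≤ K - S.card ∧
        (K - S.card : ℝ) - γ / 8 * K ≤ U'.card ∧ cut w U' ≤ γ / 8 * D * U'.card := by
      by_cases hy : (K : ℝ) - S.card ≤ U.card
      · exact hU3 _ (by linarith) hy
      · push Not at hy
        exact ⟨U, subset_rfl, hy.le, by linarith, hU1⟩
    obtain ⟨U', hU'1, hU'2, hU'3, hU'4⟩ := hex
    have hdis' : Disjoint S U' := hdis.mono_right hU'1
    have hcardG : (S ∪ U').card = S.card + U'.card := card_union_of_disjoint hdis'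
    have hG : (S ∪ U').card ≤ K := by
      have : ((S ∪ U').card : ℝ) ≤ K := by
        rw [hcardG]; push_cast; linarith
      exact_mod_cast this
    obtain ⟨F, hF1, hF2⟩ := pad h0 D hD (S ∪ U') K hG hK
    have h2 := hsound F hF1
    have h3 := cut_union h0 S U' hdis'
    have h4 : ∑ u ∈ U', ∑ v ∈ (S ∪ U')ᶜ, w u v ≤ cut w U' := by
      unfold cut
      refine sum_le_sum fun u _ => sum_le_sum_of_subset_of_nonneg ?_ fun v _ _ => h0 _ _
      intro v hv
      rw [mem_compl] at hv ⊢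
      exact fun h' => hv (mem_union_right _ h')
    have h5 : D * ((K : ℝ) - (S ∪ U').card) ≤ γ / 8 * (D * K) := by
      rw [hcardG]
      push_cast
      calc D * ((K : ℝ) - (S.card + U'.card)) ≤ D * (γ / 8 * K) :=
            mul_le_mul_of_nonneg_left (by linarith) hD0.le
        _ = _ := by ring
    have h6 : γ / 8 * D * U'.card ≤ γ / 8 * (D * K) := by
      have : (U'.card : ℝ) ≤ K := by
        have : (0 : ℝ) ≤ S.card := Nat.cast_nonneg _
        linarith
      calc γ / 8 * D * U'.card ≤ γ / 8 * D * K := mul_le_mul_of_nonneg_left this (by positivity)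
        _ = _ := by ring
    nlinarith

end Pool.Agent.helper747_se
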