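import Pool.Agent.helper747_se.Final

/-!
The size of local reductions to small-set expansion.
-/

set_option autoImplicit false

namespace Pool.Agent.helper747_se

open Finset Pool.Agent.W888.GX Pool.Agent.TH522.UG Pool.Agent.helper747_ug Pool.Agent.helper747_lr
open Pool.Agent.H647R3.UG (ind)

theorem size_sse (η : ℝ) (hη : 0 < η) :
    ∃ M : ℕ, ∃ c0 : ℝ, 0 < c0 ∧ ∃ n0 : ℕ, ∀ n : ℕ, n0 ≤ n →
      ∃ (m : ℕ) (c : Fin m → Fin 3 → Fin n),
        n ≤ 2 * m ∧ m ≤ M * n ∧ (∀ j, Function.Injective (c j)) ∧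
        (∃ b : Fin m → ZMod 2, ∀ x : Fin n → ZMod 2,
          (1 / 2 - η) * m ≤ ((univ.filter fun j => lhs c x j ≠ b j).card : ℝ)) ∧
        ∀ (V : Type) [Fintype V] [DecidableEq V] (G : (Fin m → ZMod 2) → V → V → Prop)
          (S : (Fin n → ZMod 2) → Finset V) (D K q w : ℕ) (ε γ ρ : ℝ),
          (∀ b u v, G b u v → G b v u) → (∀ b u, ∑ v, wA (G b) u v = D) →
          (∀ u v, ∃ T : Finset (Fin m), T.card ≤ q ∧ ∀ b b', (∀ j ∈ T, b j = b' j) →
            (G b u v ↔ G b' u v)) →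
          (∀ x, (S x).card = K) →
          (∀ v, ∃ T : Finset (Fin n), T.card ≤ w ∧ ∀ x x', (∀ i ∈ T, x i = x' i) →
            (v ∈ S x ↔ v ∈ S x')) →
          ∑ x : Fin n → ZMod 2, bd (G (lhs c x)) (S x) ≤ ε * (D * K) * 2 ^ n →
          1 ≤ D → 1 ≤ K → (q : ℝ) ≤ c0 * n → 1 ≤ w → 0 < ε → 0 < γ → γ ≤ 1 → 0 < ρ → ρ ≤ 1 →
          2 ^ 16 * ε ≤ ρ * γ ^ 3 →
          (∀ b : Fin m → ZMod 2, (∀ x : Fin n → ZMod 2,
            (1 / 2 - η) * m ≤ ((univ.filter fun j => lhs c x j ≠ b j).card : ℝ)) →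
            ∀ T : Finset V, T.card = K → γ * (D * K) ≤ bd (G b) T) →
          (c0 * γ ^ 6 * (K / Fintype.card V) * n / w) ^ (1 / ρ) < Fintype.card V := by
  classical
  obtain ⟨M, hM, c1, hc1, n0, h0⟩ := exists_sys η hη
  obtain ⟨c2, hc2⟩ : ∃ c2 : ℝ, c2 = min (c1 / 8) 1 := ⟨_, rfl⟩
  have hc20 : 0 < c2 := by rw [hc2]; exact lt_min (by positivity) one_pos
  refine ⟨M, c2 / 2 ^ 36, by positivity, n0 + 1, fun n hn => ?_⟩
  obtain ⟨m, c, r, h1, h2, h3, h4, h5, h6, h7⟩ := h0 n (by omega)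
  have hn1 : 1 ≤ n := by omega
  have hn0 : (0 : ℝ) < n := by exact_mod_cast hn1
  have hmin : c2 * (n : ℝ) ≤ c1 / 8 * n := by
    rw [hc2]
    exact mul_le_mul_of_nonneg_right (min_le_left _ _) hn0.le
  refine ⟨m, c, h1, h2, h3, ?_, ?_⟩
  · by_contra hcon
    push Not at hcon
    have h8 : (univ.filter fun b : Fin m → ZMod 2 => ¬ ∀ x, (1 / 2 - η) * m ≤ viol c b x) =
        univ := by
      refine filter_true_of_mem fun b _ => ?_
      obtain ⟨x, hx⟩ := hcon b
      intro hall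
      have := hall x
      rw [viol_card] at this
      linarith
    rw [h8, card_univ, Fintype.card_fun, ZMod.card, Fintype.card_fin] at h7
    push_cast at h7
    have h9 : (0 : ℝ) < 2 ^ m := by positivity
    have h10 : (1 : ℝ) < 2 ^ n := one_lt_pow₀ (by norm_num) (by omega)
    nlinarith
  · intro V _ _ G S D K q w ε γ ρ hsym hreg hreads hsize hloc hcomp hD hK hq hw hε hγ hγ1 hρ hρ1
      hερ hsound
    by_contra hcon
    push Not at hcon
    set N : ℝ := (Fintype.card V : ℝ) with hN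
    have hKV : K ≤ Fintype.card V := by
      rw [← hsize 0]
      exact card_le_univ _
    have hK' : (1 : ℝ) ≤ K := by exact_mod_cast hK
    have hKN : (K : ℝ) ≤ N := by rw [hN]; exact_mod_cast hKV
    have hN1 : 1 ≤ N := hK'.trans hKN
    have hN0 : 0 < N := by linarith
    have hw' : (1 : ℝ) ≤ w := by exact_mod_cast hw
    have hw0 : (0 : ℝ) < w := by linarith
    have hD' : (1 : ℝ) ≤ D := by exact_mod_cast hD
    have hγ6 : γ ^ 6 ≤ 1 := pow_le_one₀ hγ.le hγ1
    obtain ⟨a, ha⟩ : ∃ a : ℝ, a = c2 * n / w := ⟨_, rfl⟩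
    have ha0 : 0 < a := by rw [ha]; positivity
    obtain ⟨base, hbase⟩ : ∃ base : ℝ, base = c2 / 2 ^ 36 * γ ^ 6 * (K / N) * n / w := ⟨_, rfl⟩
    have hba : base = a / 2 ^ 36 * (γ ^ 6 * (K / N)) := by rw [hbase, ha]; ring
    have hb0 : 0 ≤ base := by rw [hbase]; positivity
    rw [← hbase] at hcon
    have hNρ : N ^ ρ ≤ base := by
      have h8 := Real.rpow_le_rpow hN0.le hcon hρ.le
      rw [← Real.rpow_mul hb0, one_div, inv_mul_cancel₀ hρ.ne', Real.rpow_one] at h8
      exact h8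
    have hNρ1 : 1 ≤ N ^ ρ := Real.one_le_rpow hN1 hρ.le
    have hKN1 : (K : ℝ) / N ≤ 1 := by rw [div_le_one hN0]; exact hKN
    have hKN0 : 0 < (K : ℝ) / N := by positivity
    have ha36 : 2 ^ 36 ≤ a := by
      have h8 : γ ^ 6 * (K / N) ≤ 1 := by
        calc γ ^ 6 * (K / N) ≤ 1 * 1 := mul_le_mul hγ6 hKN1 hKN0.le (by norm_num)
          _ = 1 := one_mul 1
      have h9 : 1 ≤ a / 2 ^ 36 * 1 := by
        calc (1 : ℝ) ≤ base := hNρ1.trans hNρ
          _ = a / 2 ^ 36 * (γ ^ 6 * (K / N)) := hba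
          _ ≤ _ := mul_le_mul_of_nonneg_left h8 (by positivity)
      rw [mul_one, le_div_iff₀ (by norm_num)] at h9
      linarith
    obtain ⟨k, hk⟩ : ∃ k : ℕ, k = ⌊a⌋₊ - 2 := ⟨_, rfl⟩
    have hfl1 : (⌊a⌋₊ : ℝ) ≤ a := Nat.floor_le ha0.le
    have hfl2 : a < ⌊a⌋₊ + 1 := Nat.lt_floor_add_one a
    have hfl3 : 2 ≤ ⌊a⌋₊ := Nat.le_floor (by norm_num; linarith)
    have hk1 : (k : ℝ) + 2 ≤ a := by
      have : k + 2 = ⌊a⌋₊ := by omega
      have h8 : ((k + 2 : ℕ) : ℝ) = ⌊a⌋₊ := by rw [this]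
      push_cast at h8
      linarith
    have hk2 : a / 2 ≤ k := by
      have : k + 2 = ⌊a⌋₊ := by omega
      have h8 : ((k + 2 : ℕ) : ℝ) = ⌊a⌋₊ := by rw [this]
      push_cast at h8
      linarith
    have hkr : 8 * ((k + 2) * w) ≤ r := by
      have h8 : ((k : ℝ) + 2) * w ≤ c2 * n := by
        calc ((k : ℝ) + 2) * w ≤ a * w := mul_le_mul_of_nonneg_right hk1 hw0.le
          _ = c2 * n := by rw [ha]; field_simp
      have h9 : (8 : ℝ) * (((k : ℝ) + 2) * w) ≤ r := by linarith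
      exact_mod_cast h9
    have hqr : q ≤ r := by
      have h8 : c2 / 2 ^ 36 * (n : ℝ) ≤ c2 * n := by
        refine mul_le_mul_of_nonneg_right ?_ hn0.le
        exact div_le_self hc20.le (by norm_num)
      have h9 : (0 : ℝ) ≤ c1 * n := by positivity
      have : (q : ℝ) ≤ r := by linarith
      exact_mod_cast this
    have hdec : ∀ x v, decide (v ∈ S x) = true ↔ v ∈ S x := fun x v => decide_eq_true_iff
    obtain ⟨b, hb, L, hL, hS, hE⟩ := exists_rhs2 c r hn1 h6 η (by convert h7) G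
      (fun x v => decide (v ∈ S x)) w q k (2 * ε * (D * K)) K
      (fun u v => by
        obtain ⟨T, hT1, hT2⟩ := hreads u v
        exact ⟨T, hT1, fun x y hxy => propext (hT2 x y hxy)⟩) hqr
      (fun v => by
        obtain ⟨T, hT1, hT2⟩ := hloc v
        refine ⟨T, hT1, fun x y hxy => ?_⟩
        show decide (v ∈ S x) = decide (v ∈ S y)
        simp only [hT2 x y hxy])
      (fun x => by
        have h8 : ∀ v, ind v true (fun v => decide (v ∈ S x)) = if v ∈ S x then (1 : ℝ) else 0 := by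
          intro v
          unfold ind
          simp
        simp only [h8]
        rw [Finset.sum_ite_mem, Finset.univ_inter, Finset.sum_const, nsmul_eq_mul, mul_one, hsize])
      (by
        have h8 : ∀ x, ∑ u, ∑ v, wA (G (lhs c x)) u v *
            rel nq u v (fun v => decide (v ∈ S x)) = 2 * bd (G (lhs c x)) (S x) := fun x =>
          bd_rel _ (hsym _) (S x) _ (hdec x)
        rw [Finset.sum_congr rfl fun x _ => h8 x, ← Finset.mul_sum]
        calc 2 * ∑ x, bd (G (lhs c x)) (S x) ≤ 2 * (ε * (D * K) * 2 ^ n) :=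
              mul_le_mul_of_nonneg_left hcomp (by norm_num)
          _ = _ := by ring) hkr
    have hfar : ∀ x : Fin n → ZMod 2,
        (1 / 2 - η) * m ≤ ((univ.filter fun j => lhs c x j ≠ b j).card : ℝ) := fun x => by
      rw [← viol_card]
      exact hb x
    have hws : ∀ u v, wA (G b) u v = wA (G b) v u := by
      intro u v
      unfold wA
      have : G b u v ↔ G b v u := ⟨hsym b u v, hsym b v u⟩
      simp only [this]
    have hlev := levels2 (wA_nonneg (G b)) hws D (by linarith) (hreg b) K hK hKV γ hγ hγ1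
      (fun T hT => by rw [← bd_cut]; exact hsound b hfar T hT) ε ρ hε hρ hρ1 hερ k L hL hS
      (by linarith)
    rw [← hN] at hlev
    have h8 : (k : ℝ) * γ ^ 6 * K ≤ a / 4 * (γ ^ 6 * K) := by
      calc (k : ℝ) * γ ^ 6 * K ≤ 2 ^ 34 * N * N ^ ρ := hlev
        _ ≤ 2 ^ 34 * N * base := mul_le_mul_of_nonneg_left hNρ (by positivity)
        _ = a / 4 * (γ ^ 6 * K) := by
            rw [hba]
            field_simp
            ring
    have h9 : a / 2 * (γ ^ 6 * K) ≤ k * (γ ^ 6 * K) :=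
      mul_le_mul_of_nonneg_right hk2 (by positivity)
    have h10 : 0 < a * (γ ^ 6 * K) := by positivity
    linarith

end Pool.Agent.helper747_se
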