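import Pool.Agent.helper747_ug.GC

/-!
# Lazy walks on graphs whose small sets expand

`Q` is a symmetric matrix with nonnegative entries and row sums one. If all sets `T` with at most `B`
elements satisfy `Q(T, T) ≤ (1 - φ) |T|`, then the square norm of the lazy walk started at a point
falls below `144 / (φ ^ 4 B)` after `O(log n / φ ^ 2)` steps, and so vectors which are correlated
along `Q` are correlated globally.
-/

set_option autoImplicit false

namespace Pool.Agent.helper747_se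

open Finset Pool.Agent.H647R3.UG Pool.Agent.helper747_ug

variable {W J : Type} [Fintype W] [Fintype J]

theorem ip_one {w : W → W → ℝ} (h1 : ∀ u, Dg w u = 1) (f g : W → ℝ) :
    ip (Dg w) f g = ∑ u, f u * g u := by
  unfold ip
  exact sum_congr rfl fun u _ => by rw [h1, one_mul]

/-- functions supported on sets with small inner weight -/
theorem loc {Q : W → W → ℝ} (hQ : Nt Q) (h1 : ∀ u, Dg Q u = 1) (φ : ℝ) (hφ : 0 ≤ φ) (hφ1 : φ ≤ 1)
    (f : W → ℝ) (hf : ∀ u, 0 ≤ f u)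
    (hT : ∀ T : Finset W, (∀ u ∈ T, 0 < f u) → wi Q T ≤ (1 - φ) * T.card) :
    Bf Q f f ≤ (1 - φ ^ 2 / 2) * ∑ u, f u ^ 2 := by
  classical
  have hvol : ∀ T : Finset W, vol (Dg Q) T = T.card := by
    intro T
    unfold vol
    simp only [h1, sum_const, nsmul_eq_mul, mul_one]
  have hl := layer hQ (1 - φ) (univ.filter fun u => 0 < f u ^ 2).card (fun u => f u ^ 2)
    (fun u => sq_nonneg _) le_rfl (fun T hTT => by
      rw [hvol]
      exact hT T fun u hu => by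
        have := hTT u hu
        exact lt_of_le_of_ne (hf u) (fun h => by rw [← h] at this; simp at this))
  set X := ∑ u, f u ^ 2 with hX
  have hX0 : 0 ≤ X := sum_nonneg fun u _ => sq_nonneg _
  have e0 : ∑ u, Dg Q u * f u ^ 2 = X := by
    rw [hX]; exact sum_congr rfl fun u _ => by rw [h1, one_mul]
  rw [e0] at hl
  have h2 := Finset.sum_sq_le_sum_mul_sum_of_sq_le_mul ((univ : Finset W) ×ˢ (univ : Finset W))
    (r := fun p => Q p.1 p.2 * (f p.1 * f p.2))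
    (f := fun p => Q p.1 p.2 * min (f p.1 ^ 2) (f p.2 ^ 2))
    (g := fun p => Q p.1 p.2 * max (f p.1 ^ 2) (f p.2 ^ 2))
    (fun p _ => mul_nonneg (hQ.nonneg _ _) (le_min (sq_nonneg _) (sq_nonneg _)))
    (fun p _ => mul_nonneg (hQ.nonneg _ _) (le_max_of_le_left (sq_nonneg _)))
    (fun p _ => le_of_eq (by
      have := min_mul_max (f p.1 ^ 2) (f p.2 ^ 2)
      calc (Q p.1 p.2 * (f p.1 * f p.2)) ^ 2 = Q p.1 p.2 ^ 2 * (f p.1 ^ 2 * f p.2 ^ 2) := by ring
        _ = Q p.1 p.2 ^ 2 * (min (f p.1 ^ 2) (f p.2 ^ 2) * max (f p.1 ^ 2) (f p.2 ^ 2)) := by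
            rw [this]
        _ = _ := by ring))
  rw [sum_product, sum_product, sum_product] at h2
  set a := ∑ u, ∑ v, Q u v * min (f u ^ 2) (f v ^ 2) with ha
  have ha0 : 0 ≤ a := sum_nonneg fun u _ => sum_nonneg fun v _ =>
    mul_nonneg (hQ.nonneg _ _) (le_min (sq_nonneg _) (sq_nonneg _))
  have h3 : ∑ u, ∑ v, Q u v * max (f u ^ 2) (f v ^ 2) = 2 * X - a := by
    have : ∑ u, ∑ v, Q u v * max (f u ^ 2) (f v ^ 2) =
        ∑ u, ∑ v, (Q u v * f u ^ 2 + Q u v * f v ^ 2 - Q u v * min (f u ^ 2) (f v ^ 2)) := by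
      refine sum_congr rfl fun u _ => sum_congr rfl fun v _ => ?_
      have := min_add_max (f u ^ 2) (f v ^ 2)
      have e : max (f u ^ 2) (f v ^ 2) = f u ^ 2 + f v ^ 2 - min (f u ^ 2) (f v ^ 2) := by linarith
      rw [e]; ring
    rw [this]
    simp only [sum_add_distrib, sum_sub_distrib]
    have a1 : ∑ u, ∑ v, Q u v * f u ^ 2 = X := by
      rw [← e0]
      refine sum_congr rfl fun u _ => ?_
      rw [← sum_mul]; rfl
    have a2 : ∑ u, ∑ v, Q u v * f v ^ 2 = X := by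
      rw [sum_comm, ← e0]
      refine sum_congr rfl fun u _ => ?_
      rw [← sum_mul]
      congr 1
      unfold Dg
      exact sum_congr rfl fun x _ => hQ.symm _ _
    rw [a1, a2, ← ha]; ring
  have h4 : Bf Q f f ^ 2 ≤ a * (2 * X - a) := by
    rw [← h3]
    exact h2
  have h5 : a * (2 * X - a) ≤ ((1 - φ ^ 2 / 2) * X) ^ 2 := by
    have h6 : 0 ≤ φ * X := mul_nonneg hφ hX0
    have h7 : (φ * X) ^ 2 ≤ (X - a) ^ 2 := pow_le_pow_left₀ h6 (by linarith) 2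
    have h8 : 0 ≤ (φ ^ 2 / 2 * X) ^ 2 := sq_nonneg _
    nlinarith
  have h9 : 0 ≤ (1 - φ ^ 2 / 2) * X := mul_nonneg (by nlinarith) hX0
  exact (abs_le_of_sq_le_sq' (h4.trans h5) h9).2

/-- analytically sparse densities -/
theorem sparse {Q : W → W → ℝ} (hQ : Nt Q) (h1 : ∀ u, Dg Q u = 1) (φ : ℝ) (hφ : 0 < φ) (hφ1 : φ ≤ 1)
    (B : ℝ) (hB : 0 < B)
    (hT : ∀ T : Finset W, (T.card : ℝ) ≤ B → wi Q T ≤ (1 - φ) * T.card)
    (h : W → ℝ) (hh : ∀ u, 0 ≤ h u) (hM : ∑ u, h u = 1)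
    (hX : 144 / (φ ^ 4 * B) ≤ ∑ u, h u ^ 2) :
    Bf Q h h ≤ (1 - φ ^ 2 / 4) * ∑ u, h u ^ 2 := by
  classical
  set X := ∑ u, h u ^ 2 with hXd
  have hX0 : 0 < X := lt_of_lt_of_le (by positivity) hX
  set θ := φ ^ 4 / 144 * X with hθ
  have hθ0 : 0 < θ := by positivity
  set f1 : W → ℝ := fun u => max (h u - θ) 0 with hf1
  set f2 : W → ℝ := fun u => min (h u) θ with hf2
  have hsum : ∀ u, h u = f1 u + f2 u := by
    intro u
    simp only [hf1, hf2]
    rcases le_total (h u) θ with h' | h'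
    · rw [max_eq_right (by linarith), min_eq_left h']; ring
    · rw [max_eq_left (by linarith), min_eq_right h']; ring
  have hf1n : ∀ u, 0 ≤ f1 u := fun u => le_max_right _ _
  have hf2n : ∀ u, 0 ≤ f2 u := fun u => le_min (hh u) hθ0.le
  have hf1h : ∀ u, f1 u ≤ h u := fun u => max_le (by linarith) (hh u)
  have n1 : ∑ u, f1 u ^ 2 ≤ X :=
    sum_le_sum fun u _ => pow_le_pow_left₀ (hf1n u) (hf1h u) 2
  have n2 : ∑ u, f2 u ^ 2 ≤ θ := by
    calc ∑ u, f2 u ^ 2 ≤ ∑ u, θ * h u := by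
          refine sum_le_sum fun u _ => ?_
          rw [sq]
          exact mul_le_mul (min_le_right _ _) (min_le_left _ _) (hf2n u) hθ0.le
      _ = θ := by rw [← mul_sum, hM, mul_one]
  have hloc := loc hQ h1 φ hφ.le hφ1 f1 hf1n (fun T hTT => by
    refine hT T ?_
    have h2 : (T.card : ℝ) * θ ≤ 1 := by
      calc (T.card : ℝ) * θ = ∑ _u ∈ T, θ := by rw [sum_const, nsmul_eq_mul]
        _ ≤ ∑ u ∈ T, h u := by
            refine sum_le_sum fun u hu => ?_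
            have h3 := hTT u hu
            simp only [hf1] at h3
            rcases le_total (h u - θ) 0 with h' | h'
            · rw [max_eq_right h'] at h3; exact absurd h3 (lt_irrefl _)
            · linarith
        _ ≤ ∑ u, h u := sum_le_sum_of_subset_of_nonneg (subset_univ _) fun u _ _ => hh u
        _ = 1 := hM
    have h4 : 1 ≤ B * θ := by
      have h5 : 144 / (φ ^ 4 * B) * (φ ^ 4 / 144 * B) ≤ X * (φ ^ 4 / 144 * B) :=
        mul_le_mul_of_nonneg_right hX (by positivity)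
      have h6 : 144 / (φ ^ 4 * B) * (φ ^ 4 / 144 * B) = 1 := by field_simp
      rw [h6] at h5
      calc (1 : ℝ) ≤ _ := h5
        _ = B * θ := by rw [hθ]; ring
    exact le_of_mul_le_mul_right (h2.trans h4) hθ0)
  have hcross : Bf Q f1 f2 ≤ φ ^ 2 / 12 * X := by
    have h2 := Bf_sq_le hQ f1 f2
    rw [ip_one h1, ip_one h1] at h2
    have e1 : ∑ u, f1 u * f1 u = ∑ u, f1 u ^ 2 := sum_congr rfl fun u _ => (sq _).symm
    have e2 : ∑ u, f2 u * f2 u = ∑ u, f2 u ^ 2 := sum_congr rfl fun u _ => (sq _).symm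
    rw [e1, e2] at h2
    have h3 : Bf Q f1 f2 ^ 2 ≤ (φ ^ 2 / 12 * X) ^ 2 := by
      refine h2.trans ((mul_le_mul n1 n2 (sum_nonneg fun u _ => sq_nonneg _) hX0.le).trans ?_)
      rw [hθ]
      exact le_of_eq (by ring)
    exact (abs_le_of_sq_le_sq' h3 (by positivity)).2
  have h22 : Bf Q f2 f2 ≤ φ ^ 4 / 144 * X := by
    have h2 := Bf_sq_le hQ f2 f2
    rw [ip_one h1] at h2
    have e2 : ∑ u, f2 u * f2 u = ∑ u, f2 u ^ 2 := sum_congr rfl fun u _ => (sq _).symm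
    rw [e2, ← sq] at h2
    have h3 := (abs_le_of_sq_le_sq' h2 (sum_nonneg fun u _ => sq_nonneg _)).2
    exact h3.trans n2
  have hexp : Bf Q h h = Bf Q f1 f1 + 2 * Bf Q f1 f2 + Bf Q f2 f2 := by
    have e : h = fun u => f1 u + f2 u := funext hsum
    have s1 : Bf Q (fun u => f1 u + f2 u) (fun u => f1 u + f2 u) =
        Bf Q f1 (fun u => f1 u + f2 u) + Bf Q f2 (fun u => f1 u + f2 u) := Bf_add _ _ _
    have s2 : Bf Q f1 (fun u => f1 u + f2 u) = Bf Q f1 f1 + Bf Q f2 f1 := by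
      rw [Bf_symm hQ, Bf_add]
    have s3 : Bf Q f2 (fun u => f1 u + f2 u) = Bf Q f1 f2 + Bf Q f2 f2 := by
      rw [Bf_symm hQ, Bf_add]
    rw [e, s1, s2, s3, Bf_symm hQ f2 f1]
    ring
  have h33 : (1 - φ ^ 2 / 2) * ∑ u, f1 u ^ 2 ≤ (1 - φ ^ 2 / 2) * X :=
    mul_le_mul_of_nonneg_left n1 (by nlinarith)
  have hφ4 : φ ^ 4 ≤ φ ^ 2 := by
    have : φ ^ 2 ≤ 1 := pow_le_one₀ hφ.le hφ1
    nlinarith [sq_nonneg φ]
  rw [hexp]
  nlinarith [mul_nonneg (sub_nonneg.2 hφ4) hX0.le, mul_nonneg (sq_nonneg φ) hX0.le]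

variable [DecidableEq W]

/-- lazy weights -/
noncomputable def lz (Q : W → W → ℝ) (u v : W) : ℝ := (Q u v + if u = v then 1 else 0) / 2

theorem lz_one {Q : W → W → ℝ} (h1 : ∀ u, Dg Q u = 1) (u : W) : Dg (lz Q) u = 1 := by
  unfold Dg lz
  rw [← sum_div, sum_add_distrib]
  have := h1 u
  unfold Dg at this
  rw [this]
  simp

theorem lz_nt {Q : W → W → ℝ} (hQ : Nt Q) (h1 : ∀ u, Dg Q u = 1) : Nt (lz Q) := by
  refine ⟨fun u v => ?_, fun u v => ?_, fun u => by rw [lz_one h1]; norm_num⟩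
  · unfold lz
    have := hQ.nonneg u v
    split_ifs <;> linarith
  · unfold lz
    rw [hQ.symm u v]
    by_cases h : u = v
    · subst h; simp
    · have h' : ¬ v = u := fun e => h e.symm
      simp [h, h']

theorem lz_Pw {Q : W → W → ℝ} (h1 : ∀ u, Dg Q u = 1) (f : W → ℝ) (u : W) :
    Pw (lz Q) f u = (Pw Q f u + f u) / 2 := by
  unfold Pw
  rw [lz_one h1, h1, div_one, div_one]
  unfold lz
  have : ∀ v, (Q u v + if u = v then 1 else 0) / 2 * f v =
      (Q u v * f v + if u = v then f v else 0) / 2 := by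
    intro v
    split_ifs <;> ring
  simp only [this]
  rw [← sum_div, sum_add_distrib]
  simp

theorem lz_step {Q : W → W → ℝ} (hQ : Nt Q) (h1 : ∀ u, Dg Q u = 1) (f : W → ℝ) :
    ∑ u, Pw (lz Q) f u ^ 2 ≤ (∑ u, f u ^ 2 + Bf Q f f) / 2 := by
  have h2 := Pw_contr hQ f
  rw [ip_one h1, ip_one h1] at h2
  have h3 := Bf_eq_ip hQ f f
  rw [ip_one h1] at h3
  have e : ∑ u, Pw (lz Q) f u ^ 2 =
      (∑ u, Pw Q f u * Pw Q f u + 2 * ∑ u, f u * Pw Q f u + ∑ u, f u * f u) / 4 := by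
    rw [mul_sum, ← sum_add_distrib, ← sum_add_distrib, sum_div]
    refine sum_congr rfl fun u _ => ?_
    rw [lz_Pw h1]
    ring
  have e2 : ∑ u, f u ^ 2 = ∑ u, f u * f u := sum_congr rfl fun u _ => sq _
  rw [e, h3, e2]
  linarith

/-- decay of the walk from a point -/
theorem decay {Q : W → W → ℝ} (hQ : Nt Q) (h1 : ∀ u, Dg Q u = 1) (φ : ℝ) (hφ : 0 < φ) (hφ1 : φ ≤ 1)
    (B : ℝ) (hB : 0 < B)
    (hT : ∀ T : Finset W, (T.card : ℝ) ≤ B → wi Q T ≤ (1 - φ) * T.card) (v : W) :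
    ∀ t : ℕ, ∑ u, Kt (lz Q) t v u ^ 2 ≤ (1 - φ ^ 2 / 8) ^ t + 144 / (φ ^ 4 * B) := by
  have hb0 : 0 ≤ 1 - φ ^ 2 / 8 := by nlinarith
  have hb1 : 1 - φ ^ 2 / 8 ≤ 1 := by nlinarith [sq_nonneg φ]
  have hB0 : 0 < 144 / (φ ^ 4 * B) := by positivity
  intro t
  induction t with
  | zero =>
    have e : ∑ u, Kt (lz Q) 0 v u ^ 2 = 1 := by
      show ∑ u, (dl (Dg (lz Q)) v u) ^ 2 = 1
      unfold dl
      rw [Finset.sum_eq_single v]
      · simp [lz_one h1]
      · intro b _ hb; simp [hb]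
      · simp
    rw [e, pow_zero]
    linarith
  | succ t ih =>
    obtain ⟨hn, hm⟩ := Kt_facts (lz_nt hQ h1) v t
    have hm' : ∑ u, Kt (lz Q) t v u = 1 := by
      rw [← hm]
      exact sum_congr rfl fun u _ => by rw [lz_one h1, one_mul]
    rw [Kt_succ]
    have h2 := lz_step hQ h1 (Kt (lz Q) t v)
    set X := ∑ u, Kt (lz Q) t v u ^ 2 with hX
    by_cases hc : 144 / (φ ^ 4 * B) ≤ X
    · have h3 := sparse hQ h1 φ hφ hφ1 B hB hT (Kt (lz Q) t v) hn hm' hc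
      rw [← hX] at h3
      have h4 : (1 - φ ^ 2 / 8) * X ≤ (1 - φ ^ 2 / 8) * ((1 - φ ^ 2 / 8) ^ t + 144 / (φ ^ 4 * B)) :=
        mul_le_mul_of_nonneg_left ih hb0
      have h5 : (1 - φ ^ 2 / 8) * (144 / (φ ^ 4 * B)) ≤ 1 * (144 / (φ ^ 4 * B)) :=
        mul_le_mul_of_nonneg_right hb1 hB0.le
      rw [pow_succ]
      nlinarith
    · push Not at hc
      have h3 := Bf_sq_le hQ (Kt (lz Q) t v) (Kt (lz Q) t v)
      rw [ip_one h1, ← sq] at h3
      have e2 : ∑ u, Kt (lz Q) t v u * Kt (lz Q) t v u = X := by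
        rw [hX]; exact sum_congr rfl fun u _ => (sq _).symm
      rw [e2] at h3
      have h4 := (abs_le_of_sq_le_sq' h3 (sum_nonneg fun u _ => sq_nonneg _)).2
      have h5 : 0 ≤ (1 - φ ^ 2 / 8) ^ (t + 1) := pow_nonneg hb0 _
      linarith

/-- global correlation -/
theorem corr {Q : W → W → ℝ} (hQ : Nt Q) (h1 : ∀ u, Dg Q u = 1) (φ : ℝ) (hφ : 0 < φ) (hφ1 : φ ≤ 1)
    (B : ℝ) (hB : 0 < B)
    (hT : ∀ T : Finset W, (T.card : ℝ) ≤ B → wi Q T ≤ (1 - φ) * T.card)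
    (U : J → W → ℝ) (e : ℝ) (he1 : e ≤ 1)
    (hloc : (1 - 2 * e) * ∑ u, ∑ j, U j u * U j u ≤ ∑ u, ∑ v, Q u v * ∑ j, U j u * U j v) (t : ℕ) :
    (1 - e) ^ (4 * t) * (∑ u, ∑ j, U j u * U j u) ^ 2 ≤
      ((Fintype.card W : ℝ) * ((1 - φ ^ 2 / 8) ^ (2 * t) + 144 / (φ ^ 4 * B))) *
      ∑ u, ∑ v, (∑ j, U j u * U j v) ^ 2 := by
  set w := lz Q with hwd
  have hw : Nt w := lz_nt hQ h1
  have hw1 : ∀ u, Dg w u = 1 := lz_one h1
  have hb0 : 0 ≤ 1 - φ ^ 2 / 8 := by nlinarith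
  have hR0 : 0 ≤ (Fintype.card W : ℝ) * ((1 - φ ^ 2 / 8) ^ (2 * t) + 144 / (φ ^ 4 * B)) :=
    mul_nonneg (Nat.cast_nonneg _) (add_nonneg (pow_nonneg hb0 _) (by positivity))
  have hS0 : 0 ≤ ∑ u, ∑ v, (∑ j, U j u * U j v) ^ 2 :=
    sum_nonneg fun u _ => sum_nonneg fun v _ => sq_nonneg _
  set a : ℕ → ℝ := fun s => ∑ j, ip (Dg w) ((Pw w)^[s] (U j)) ((Pw w)^[s] (U j)) with ha
  have ha0 : ∀ s, 0 ≤ a s := fun s => sum_nonneg fun j _ => ip_self_nonneg hw _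
  have haA : a 0 = ∑ u, ∑ j, U j u * U j u := by
    show ∑ j, ip (Dg w) (U j) (U j) = _
    rw [sum_comm]
    exact sum_congr rfl fun j _ => ip_one hw1 _ _
  rw [← haA] at hloc ⊢
  have hb : (1 - e) * a 0 ≤ ∑ j, ip (Dg w) (U j) (Pw w (U j)) := by
    have h2 : ∀ j, ip (Dg w) (U j) (Pw w (U j)) = (Bf Q (U j) (U j) + ip (Dg w) (U j) (U j)) / 2 := by
      intro j
      rw [ip_one hw1, ip_one hw1, Bf_eq_ip hQ, ip_one h1, ← sum_add_distrib, sum_div]
      refine sum_congr rfl fun u _ => ?_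
      rw [hwd, lz_Pw h1]
      ring
    simp only [h2]
    rw [← sum_div, sum_add_distrib]
    have h3 : ∑ j, Bf Q (U j) (U j) = ∑ u, ∑ v, Q u v * ∑ j, U j u * U j v := by
      unfold Bf
      rw [sum_comm]
      refine sum_congr rfl fun u _ => ?_
      rw [sum_comm]
      refine sum_congr rfl fun v _ => ?_
      rw [mul_sum]
    rw [h3]
    have h4 : ∑ j, ip (Dg w) (U j) (U j) = a 0 := rfl
    rw [h4]
    linarith
  rcases (ha0 0).eq_or_lt with hz | hpos0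
  · rw [← hz]
    have : (0 : ℝ) ≤ ((Fintype.card W : ℝ) * ((1 - φ ^ 2 / 8) ^ (2 * t) + 144 / (φ ^ 4 * B))) *
      ∑ u, ∑ v, (∑ j, U j u * U j v) ^ 2 := mul_nonneg hR0 hS0
    simpa using this
  have h1e : 0 ≤ 1 - e := by linarith
  have hb1 : (1 - e) ^ 2 * a 0 ≤ a 1 := by
    have h2 := cs_fam hw U (fun j => Pw w (U j))
    have h3 : ((1 - e) * a 0) ^ 2 ≤ a 0 * a 1 :=
      (pow_le_pow_left₀ (mul_nonneg h1e (ha0 0)) hb 2).trans h2
    have h4 : a 0 * ((1 - e) ^ 2 * a 0) ≤ a 0 * a 1 := by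
      calc a 0 * ((1 - e) ^ 2 * a 0) = ((1 - e) * a 0) ^ 2 := by ring
        _ ≤ _ := h3
    exact le_of_mul_le_mul_left h4 hpos0
  have hlc : ∀ s, a (s + 1) ^ 2 ≤ a s * a (s + 2) := by
    intro s
    have h2 := cs_fam hw (fun j => (Pw w)^[s] (U j)) (fun j => (Pw w)^[s + 2] (U j))
    have h3 : ∑ j, ip (Dg w) ((Pw w)^[s] (U j)) ((Pw w)^[s + 2] (U j)) = a (s + 1) := by
      refine sum_congr rfl fun j _ => ?_
      rw [show s + 2 = (s + 1) + 1 by ring, Function.iterate_succ_apply' (Pw w) (s + 1), ← Pw_adj hw,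
        ← Function.iterate_succ_apply' (Pw w) s]
    rw [h3] at h2
    exact h2
  have hat : ∀ s, (1 - e) ^ (2 * s) * a 0 ≤ a s ∧ (1 - e) ^ 2 * a s ≤ a (s + 1) := by
    intro s
    induction s with
    | zero => exact ⟨by simp, hb1⟩
    | succ s ih =>
      obtain ⟨i1, i2⟩ := ih
      have i3 : (1 - e) ^ (2 * (s + 1)) * a 0 ≤ a (s + 1) := by
        calc (1 - e) ^ (2 * (s + 1)) * a 0 = (1 - e) ^ 2 * ((1 - e) ^ (2 * s) * a 0) := by ring
          _ ≤ (1 - e) ^ 2 * a s := mul_le_mul_of_nonneg_left i1 (by positivity)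
          _ ≤ _ := i2
      refine ⟨i3, ?_⟩
      rcases (ha0 s).eq_or_lt with hs | hs
      · -- then `a (s+1) = 0`
        have h5 : a (s + 1) ^ 2 ≤ 0 := by
          have := hlc s
          rwa [← hs, zero_mul] at this
        have h6 : a (s + 1) = 0 := by
          have := sq_nonneg (a (s + 1))
          exact pow_eq_zero_iff (two_ne_zero) |>.1 (le_antisymm h5 this)
        rw [h6, mul_zero]
        exact ha0 _
      · have h5 : a s * ((1 - e) ^ 2 * a (s + 1)) ≤ a s * a (s + 2) := by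
          calc a s * ((1 - e) ^ 2 * a (s + 1)) = ((1 - e) ^ 2 * a s) * a (s + 1) := by ring
            _ ≤ a (s + 1) * a (s + 1) := mul_le_mul_of_nonneg_right i2 (ha0 _)
            _ = a (s + 1) ^ 2 := by ring
            _ ≤ _ := hlc s
        exact le_of_mul_le_mul_left h5 hs
  -- expansion in the kernel
  set K : W → W → ℝ := fun v u => Kt w (2 * t) v u with hK
  have hexp : a t = ∑ u, ∑ v, (∑ j, U j u * U j v) * K v u := by
    have h2 : ∀ j, ip (Dg w) ((Pw w)^[t] (U j)) ((Pw w)^[t] (U j)) =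
        ip (Dg w) (U j) ((Pw w)^[2 * t] (U j)) := by
      intro j
      rw [iter_adj hw, ← Function.iterate_add_apply, two_mul]
    show ∑ j, ip (Dg w) ((Pw w)^[t] (U j)) ((Pw w)^[t] (U j)) = _
    rw [sum_congr rfl fun j _ => h2 j]
    simp only [iter_Kt hw, ip_one hw1, hw1, one_mul]
    rw [sum_comm]
    refine sum_congr rfl fun u _ => ?_
    simp only [mul_sum, sum_mul]
    rw [sum_comm]
    refine sum_congr rfl fun v _ => sum_congr rfl fun j _ => by ring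
  have hcs := Finset.sum_sq_le_sum_mul_sum_of_sq_le_mul ((univ : Finset W) ×ˢ (univ : Finset W))
    (r := fun p => (∑ j, U j p.1 * U j p.2) * K p.2 p.1)
    (f := fun p => (∑ j, U j p.1 * U j p.2) ^ 2)
    (g := fun p => K p.2 p.1 ^ 2)
    (fun p _ => sq_nonneg _)
    (fun p _ => sq_nonneg _)
    (fun p _ => le_of_eq (by ring))
  rw [sum_product, sum_product, sum_product] at hcs
  rw [← hexp] at hcs
  have hKt : ∑ u, ∑ v, K v u ^ 2 ≤
      (Fintype.card W : ℝ) * ((1 - φ ^ 2 / 8) ^ (2 * t) + 144 / (φ ^ 4 * B)) := by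
    rw [sum_comm]
    calc ∑ v, ∑ u, K v u ^ 2 ≤ ∑ _v : W, ((1 - φ ^ 2 / 8) ^ (2 * t) + 144 / (φ ^ 4 * B)) :=
          sum_le_sum fun v _ => decay hQ h1 φ hφ hφ1 B hB hT v (2 * t)
      _ = _ := by rw [sum_const, card_univ, nsmul_eq_mul]
  have h9 : (1 - e) ^ (4 * t) * a 0 ^ 2 ≤ a t ^ 2 := by
    calc (1 - e) ^ (4 * t) * a 0 ^ 2 = ((1 - e) ^ (2 * t) * a 0) ^ 2 := by ring
      _ ≤ _ := pow_le_pow_left₀ (by have := ha0 0; positivity) (hat t).1 2
  have h11 := mul_le_mul_of_nonneg_left hKt hS0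
  calc (1 - e) ^ (4 * t) * a 0 ^ 2 ≤ _ := h9.trans (hcs.trans h11)
    _ = _ := by ring

end Pool.Agent.helper747_se
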